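import Pool.Agent.Helper47.NP.Diff4

set_option autoImplicit false
open Real MeasureTheory Set
open scoped ENNReal
open Pool.Agent.Helper59.NP

namespace Pool.Agent.Helper47.NP

variable {η : ℝ → ℝ}

theorem deriv_eta_zero (h : IsBump η) : deriv η 0 = 0 := by
  have : IsLocalMin η 0 := by
    refine Filter.Eventually.of_forall fun z => ?_
    rw [eta_zero h]
    exact h.nonneg z
  exact this.deriv_eq_zero

theorem eta_le_sq (h : IsBump η) : ∃ M > (0 : ℝ), ∀ z, η z ≤ M * z ^ 2 := by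
  obtain ⟨M, hM, -, -, hq⟩ := h.exists_bound
  refine ⟨M, hM, fun z => ?_⟩
  have := hq 0 z
  unfold gam gam' at this
  rw [eta_zero h, deriv_eta_zero h] at this
  have h1 := le_abs_self (π / 4 - 0 - (π / 4 - η z) - -0 * (0 - z))
  have h2 : π / 4 - 0 - (π / 4 - η z) - -0 * (0 - z) = η z := by ring
  have h3 : M * (0 - z) ^ 2 = M * z ^ 2 := by ring
  linarith

theorem pp_neg (X θ : ℝ) : pp (-X) θ = -pp X θ := by
  unfold pp
  rw [N_neg, sinh_neg, neg_div]

theorem pp_neg' (X θ : ℝ) : pp X (-θ) = pp X θ := by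
  unfold pp
  rw [N_neg']

theorem pp_sing {X δ M : ℝ} (h0 : 0 < X) (h1 : X ≤ 1) (hδ : |δ| ≤ M * X ^ 2) :
    |pp X δ - 1 / X| ≤ 2 + M ^ 2 := by
  have hN := N_pos_of_ne h0.ne' δ
  have e : pp X δ - 1 / X = (X * sinh X - 2 * N X δ) / (2 * N X δ * X) := by
    unfold pp
    field_simp
  have hX : |X| ≤ 1 := by rw [abs_of_pos h0]; exact h1
  -- numerator
  have hs := abs_le.mp (abs_sinh_sub_le hX)
  have hc := cosh_sub_one_ge X
  have hce := cosh_le_exp_half_sq X
  have hex := abs_exp_sub_one_sub_id_le (x := X ^ 2 / 2) (by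
    rw [abs_of_nonneg (by positivity)]
    have : X ^ 2 ≤ 1 := pow_le_one₀ h0.le h1
    linarith)
  have hex' := (abs_le.mp hex).2
  have hcos1 := one_sub_sq_div_two_le_cos (x := δ)
  have hcos2 := cos_le_one δ
  have hδ2 : δ ^ 2 ≤ M ^ 2 * X ^ 4 := by
    rw [← sq_abs]
    calc |δ| ^ 2 ≤ (M * X ^ 2) ^ 2 := by gcongr
      _ = M ^ 2 * X ^ 4 := by ring
  have hX4 : X ^ 4 ≤ X ^ 3 := pow_le_pow_of_le_one h0.le h1 (by norm_num)
  have hnum : |X * sinh X - 2 * N X δ| ≤ (2 + M ^ 2) * X ^ 3 := by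
    have e2 : X * sinh X - 2 * N X δ
        = X * (sinh X - X) - (2 * (cosh X - 1) - X ^ 2) - 2 * (1 - cos δ) := by
      unfold N; ring
    have a1 : |X * (sinh X - X)| ≤ X ^ 3 := by
      rw [abs_mul, abs_of_pos h0]
      calc X * |sinh X - X| ≤ X * X ^ 2 := by
            gcongr
            exact abs_sinh_sub_le hX
        _ = X ^ 3 := by ring
    have a2 : |2 * (cosh X - 1) - X ^ 2| ≤ X ^ 3 := by
      rw [abs_le]
      constructor
      · have : 0 < X ^ 3 := by positivity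
        linarith
      · have : (X ^ 2 / 2) ^ 2 = X ^ 4 / 4 := by ring
        nlinarith
    have a3 : |2 * (1 - cos δ)| ≤ M ^ 2 * X ^ 3 := by
      rw [abs_of_nonneg (by linarith)]
      have : M ^ 2 * X ^ 4 ≤ M ^ 2 * X ^ 3 := by gcongr
      linarith
    rw [e2]
    refine (abs_sub _ _).trans ?_
    have := (abs_sub (X * (sinh X - X)) (2 * (cosh X - 1) - X ^ 2))
    nlinarith
  have hden : X ^ 3 ≤ 2 * N X δ * X := by
    have := N_ge X δ
    nlinarith
  rw [e, abs_div, abs_of_pos (a := 2 * N X δ * X) (by positivity), div_le_iff₀ (by positivity)]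
  have : 0 ≤ 2 + M ^ 2 := by positivity
  nlinarith

theorem Ps_near (h : IsBump η) {M : ℝ} (hM0 : 0 < M) (hM : ∀ z, η z ≤ M * z ^ 2) {x s z : ℝ}
    (hx : 0 < x) (hz : z ≤ 0) (hs0 : 0 ≤ s) (hs1 : s ≤ 1) (hxz : x - z ≤ 1) :
    |Ps η x s z - 1 / (x - z)| ≤ 3 + M ^ 2 := by
  set X := x - z with hX
  have hXpos : 0 < X := by linarith
  have hη := h.nonneg z
  have hη1 := h.small z
  have e : Ps η x s z = -pp X (hh η s z + π / 4) + pp X (s * η z) := by
    unfold Ps
    rw [show z - x = -X by ring, pp_neg, pp_neg]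
    have : hh η s z - π / 4 = -(s * η z) := by unfold hh; ring
    rw [this, pp_neg']
    ring
  have h1 : |pp X (hh η s z + π / 4)| ≤ 1 := by
    have := abs_pp_le (X := X) (θ := hh η s z + π / 4) (c := 1 / 2) (by norm_num) (by
      have e2 : hh η s z + π / 4 = π / 2 - s * η z := by unfold hh; ring
      unfold N
      rw [e2, cos_pi_div_two_sub]
      have h3 : sin (s * η z) ≤ s * η z := sin_le (by positivity)
      have h4 : s * η z ≤ 1 / 100 := by nlinarith
      have := one_le_cosh X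
      linarith)
    norm_num at this
    exact this
  have h2 : |pp X (s * η z) - 1 / X| ≤ 2 + M ^ 2 := by
    refine pp_sing hXpos hxz ?_
    rw [abs_of_nonneg (by positivity)]
    have h3 : z ^ 2 ≤ X ^ 2 := by nlinarith
    calc s * η z ≤ 1 * (M * z ^ 2) := by
          gcongr
          exact hM z
      _ ≤ M * X ^ 2 := by rw [one_mul]; gcongr
  rw [e]
  have e3 : -pp X (hh η s z + π / 4) + pp X (s * η z) - 1 / X
      = -pp X (hh η s z + π / 4) + (pp X (s * η z) - 1 / X) := by ring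
  rw [e3]
  refine (abs_add_le _ _).trans ?_
  rw [abs_neg]
  linarith

end Pool.Agent.Helper47.NP
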