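import Mathlib

set_option autoImplicit false
open Real MeasureTheory Set

namespace Pool.Agent.Helper47.NP

/-- combination of second differences -/
def Dc {n : ℕ} {E : Type*} [AddCommGroup E] [Module ℝ E] (c : Fin n → ℝ) (φ : ℕ → E) : E :=
  ∑ j : Fin n, c j • (φ (3 * j + 1) - (2 : ℝ) • φ (3 * j + 2) + φ (3 * j + 3))

section basic

variable {n : ℕ} {E E' : Type*} [AddCommGroup E] [Module ℝ E] [AddCommGroup E'] [Module ℝ E']

theorem map_Dc (L : E →ₗ[ℝ] E') (c : Fin n → ℝ) (φ : ℕ → E) :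
    L (Dc c φ) = Dc c (fun t => L (φ t)) := by
  unfold Dc
  simp [map_sum]

theorem Dc_smul (r : ℝ) (c : Fin n → ℝ) (φ : ℕ → E) : Dc (r • c) φ = r • Dc c φ := by
  unfold Dc
  rw [Finset.smul_sum]
  refine Finset.sum_congr rfl fun j _ => ?_
  simp [mul_smul]

theorem Dc_add (c c' : Fin n → ℝ) (φ : ℕ → E) : Dc (c + c') φ = Dc c φ + Dc c' φ := by
  unfold Dc
  rw [← Finset.sum_add_distrib]
  refine Finset.sum_congr rfl fun j _ => ?_
  rw [Pi.add_apply, add_smul]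

/-- `Dc` as a linear map of `c`. -/
def DcLin (n : ℕ) (φ : ℕ → E) : (Fin n → ℝ) →ₗ[ℝ] E where
  toFun c := Dc c φ
  map_add' c c' := Dc_add c c' φ
  map_smul' r c := Dc_smul r c φ

theorem Dc_sub (c : Fin n → ℝ) (φ ψ : ℕ → E) : Dc c (fun t => φ t - ψ t) = Dc c φ - Dc c ψ := by
  unfold Dc
  rw [← Finset.sum_sub_distrib]
  refine Finset.sum_congr rfl fun j _ => ?_
  rw [← smul_sub]
  congr 1
  simp only [smul_sub]
  abel

theorem Dc_congr (c : Fin n → ℝ) {φ ψ : ℕ → E} (h : ∀ t, 1 ≤ t → t ≤ 3 * n → φ t = ψ t) :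
    Dc c φ = Dc c ψ := by
  unfold Dc
  refine Finset.sum_congr rfl fun j _ => ?_
  have := j.2
  rw [h _ (by omega) (by omega), h _ (by omega) (by omega), h _ (by omega) (by omega)]

theorem Dc_const_smul (c : Fin n → ℝ) (a : ℝ) (φ : ℕ → E) :
    Dc c (fun t => a • φ t) = a • Dc c φ := by
  unfold Dc
  rw [Finset.smul_sum]
  refine Finset.sum_congr rfl fun j _ => ?_
  simp only [smul_sub, smul_add, smul_comm a]

theorem abs_Dc_le {c : Fin n → ℝ} (hc : ∀ j, |c j| ≤ 1) {φ : ℕ → ℝ} {B : ℝ}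
    (hB : ∀ t, 1 ≤ t → t ≤ 3 * n → |φ t| ≤ B) : |Dc c φ| ≤ n * (4 * B) := by
  unfold Dc
  refine (Finset.abs_sum_le_sum_abs _ _).trans ?_
  have : ∀ j ∈ (Finset.univ : Finset (Fin n)),
      |c j • (φ (3 * j + 1) - (2 : ℝ) • φ (3 * j + 2) + φ (3 * j + 3))| ≤ 4 * B := by
    intro j _
    have hj := j.2
    have h1 := abs_le.mp (hB (3 * j + 1) (by omega) (by omega))
    have h2 := abs_le.mp (hB (3 * j + 2) (by omega) (by omega))
    have h3 := abs_le.mp (hB (3 * j + 3) (by omega) (by omega))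
    rw [smul_eq_mul, abs_mul, smul_eq_mul]
    have h4 : |φ (3 * j + 1) - 2 * φ (3 * j + 2) + φ (3 * j + 3)| ≤ 4 * B := by
      rw [abs_le]; constructor <;> linarith
    calc |c j| * |φ (3 * j + 1) - 2 * φ (3 * j + 2) + φ (3 * j + 3)|
        ≤ 1 * (4 * B) := by
          gcongr
          exact hc j
      _ = 4 * B := one_mul _
  refine (Finset.sum_le_sum this).trans ?_
  simp

theorem Dc_Dc_mul (c : Fin n → ℝ) (φ ψ : ℕ → ℝ) :
    Dc c (fun t => Dc c (fun u => φ t * ψ u)) = Dc c φ * Dc c ψ := by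
  have h1 : ∀ t, Dc c (fun u => φ t * ψ u) = φ t * Dc c ψ := fun t =>
    Dc_const_smul c (φ t) ψ
  simp_rw [h1]
  have h2 : Dc c (fun t => φ t * Dc c ψ) = Dc c ψ • Dc c φ := by
    rw [← Dc_const_smul]
    congr 1
    funext t
    rw [smul_eq_mul, mul_comm]
  rw [h2, smul_eq_mul, mul_comm]

end basic

open Polynomial in
/-- the denominators -/
noncomputable def blk (i : ℕ) : ℝ[X] :=
  (X + C (3 * (i : ℝ) + 1)) * (X + C (3 * (i : ℝ) + 2)) * (X + C (3 * (i : ℝ) + 3))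

theorem blk_eval (i : ℕ) (τ : ℝ) :
    (blk i).eval τ = (τ + (3 * i + 1)) * (τ + (3 * i + 2)) * (τ + (3 * i + 3)) := by
  unfold blk
  simp

theorem blk_eval_pos (i : ℕ) {τ : ℝ} (hτ : 0 < τ) : 0 < (blk i).eval τ := by
  rw [blk_eval]
  positivity

theorem second_diff (i : ℕ) {τ : ℝ} (hτ : 0 < τ) :
    1 / (τ + ((3 * i + 1 : ℕ) : ℝ)) - 2 * (1 / (τ + ((3 * i + 2 : ℕ) : ℝ)))
      + 1 / (τ + ((3 * i + 3 : ℕ) : ℝ)) = 2 / (blk i).eval τ := by
  rw [blk_eval]
  push_cast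
  have h1 : τ + (3 * (i : ℝ) + 1) ≠ 0 := by positivity
  have h2 : τ + (3 * (i : ℝ) + 2) ≠ 0 := by positivity
  have h3 : τ + (3 * (i : ℝ) + 3) ≠ 0 := by positivity
  field_simp
  ring

/-- `G_c(τ)` -/
noncomputable def GG {n : ℕ} (c : Fin n → ℝ) (τ : ℝ) : ℝ := Dc c (fun t => 1 / (τ + (t : ℝ)))

theorem GG_eq {n : ℕ} (c : Fin n → ℝ) {τ : ℝ} (hτ : 0 < τ) :
    GG c τ = ∑ j : Fin n, c j * (2 / (blk j).eval τ) := by
  unfold GG Dc
  refine Finset.sum_congr rfl fun j _ => ?_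
  rw [smul_eq_mul, smul_eq_mul, second_diff _ hτ]

open Polynomial in
theorem exists_GG_ne {n : ℕ} (c : Fin n → ℝ) (hc : c ≠ 0) : ∃ τ ∈ Icc (1 : ℝ) 2, GG c τ ≠ 0 := by
  classical
  by_contra hcon
  push Not at hcon
  apply hc
  set P : ℝ[X] := ∑ j : Fin n, C (c j) * ∏ i ∈ Finset.univ.erase j, blk (i : Fin n) with hP
  have hroot : ∀ τ ∈ Icc (1 : ℝ) 2, P.IsRoot τ := by
    intro τ hτ
    have hτ0 : 0 < τ := by linarith [hτ.1]
    have h1 := hcon τ hτ
    rw [GG_eq c hτ0] at h1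
    have h2 : P.eval τ = (∏ i : Fin n, (blk i).eval τ) * (∑ j : Fin n, c j * (2 / (blk j).eval τ)) / 2 := by
      rw [hP, eval_finsetSum, Finset.mul_sum, Finset.sum_div]
      refine Finset.sum_congr rfl fun j _ => ?_
      rw [eval_mul, eval_C, eval_prod, ← Finset.mul_prod_erase _ _ (Finset.mem_univ j)]
      have := (blk_eval_pos j hτ0).ne'
      field_simp
    rw [IsRoot, h2, h1]
    simp
  have hinf : Set.Infinite {τ | P.IsRoot τ} := (Icc_infinite (by norm_num : (1 : ℝ) < 2)).mono hroot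
  have hP0 : P = 0 := eq_zero_of_infinite_isRoot P hinf
  funext j0
  have h3 : P.eval (-(3 * ((j0 : ℕ) : ℝ) + 1)) = 0 := by rw [hP0]; simp
  rw [hP, eval_finsetSum, Finset.sum_eq_single j0] at h3
  · rw [eval_mul, eval_C, mul_eq_zero] at h3
    rcases h3 with h3 | h3
    · exact h3
    · exfalso
      rw [eval_prod, Finset.prod_eq_zero_iff] at h3
      obtain ⟨i, hi, h4⟩ := h3
      have hij : (i : ℕ) ≠ (j0 : ℕ) := fun h => (Finset.ne_of_mem_erase hi) (Fin.ext h)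
      rw [blk_eval] at h4
      have hz : (3 * ((i : ℕ) : ℤ) - 3 * ((j0 : ℕ) : ℤ)) * (3 * ((i : ℕ) : ℤ) - 3 * ((j0 : ℕ) : ℤ) + 1)
          * (3 * ((i : ℕ) : ℤ) - 3 * ((j0 : ℕ) : ℤ) + 2) = 0 := by
        have : (((3 * ((i : ℕ) : ℤ) - 3 * ((j0 : ℕ) : ℤ)) * (3 * ((i : ℕ) : ℤ) - 3 * ((j0 : ℕ) : ℤ) + 1)
          * (3 * ((i : ℕ) : ℤ) - 3 * ((j0 : ℕ) : ℤ) + 2) : ℤ) : ℝ) = 0 := by
          push_cast
          linear_combination h4
        exact_mod_cast this
      rw [mul_eq_zero, mul_eq_zero] at hz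
      rcases hz with (hz | hz) | hz <;> omega
  · intro j _ hj
    rw [eval_mul, eval_prod]
    have : ∏ i ∈ Finset.univ.erase j, (blk (i : Fin n)).eval (-(3 * ((j0 : ℕ) : ℝ) + 1)) = 0 := by
      apply Finset.prod_eq_zero (i := j0)
      · exact Finset.mem_erase.mpr ⟨hj.symm, Finset.mem_univ _⟩
      · rw [blk_eval]; ring
    rw [this, mul_zero]
  · intro h; exact absurd (Finset.mem_univ _) h

theorem GG_continuousOn {n : ℕ} (c : Fin n → ℝ) : ContinuousOn (GG c) (Ioi 0) := by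
  unfold GG Dc
  refine continuousOn_finsetSum _ fun j _ => ?_
  have h : ∀ t : ℕ, ContinuousOn (fun τ : ℝ => 1 / (τ + (t : ℝ))) (Ioi 0) := by
    intro t
    refine continuousOn_const.div (by fun_prop) ?_
    intro τ hτ
    have : (0 : ℝ) < τ := hτ
    positivity
  simp only [smul_eq_mul]
  exact continuousOn_const.mul (((h _).sub (continuousOn_const.mul (h _))).add (h _))

/-- uniform lower bound of `∫ G_c²` on the unit sphere -/
theorem exists_lower (n : ℕ) : ∃ m > (0 : ℝ), ∀ c : Fin n → ℝ, ‖c‖ = 1 →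
    m ≤ ∫ τ in (1 : ℝ)..2, GG c τ ^ 2 := by
  classical
  set g : Fin n → ℝ → ℝ := fun j τ => 2 / (blk j).eval τ with hg
  have hsub : Icc (1 : ℝ) 2 ⊆ Ioi 0 := fun x hx => lt_of_lt_of_le one_pos hx.1
  have hgc : ∀ j, ContinuousOn (g j) (Icc 1 2) := by
    intro j
    refine continuousOn_const.div (Polynomial.continuous _).continuousOn ?_
    intro τ hτ
    exact (blk_eval_pos _ (hsub hτ)).ne'
  have u12 : uIcc (1 : ℝ) 2 = Icc 1 2 := uIcc_of_le (by norm_num)
  have hq : ∀ c : Fin n → ℝ, ∫ τ in (1 : ℝ)..2, GG c τ ^ 2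
      = ∑ i, ∑ j, c i * c j * ∫ τ in (1 : ℝ)..2, g i τ * g j τ := by
    intro c
    have e1 : ∫ τ in (1 : ℝ)..2, GG c τ ^ 2
        = ∫ τ in (1 : ℝ)..2, ∑ i, ∑ j, c i * c j * (g i τ * g j τ) := by
      refine intervalIntegral.integral_congr fun τ hτ => ?_
      rw [u12] at hτ
      rw [GG_eq c (hsub hτ), sq, Finset.sum_mul_sum]
      refine Finset.sum_congr rfl fun i _ => Finset.sum_congr rfl fun j _ => ?_
      simp only [hg]
      ring
    rw [e1, intervalIntegral.integral_finsetSum]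
    · refine Finset.sum_congr rfl fun i _ => ?_
      rw [intervalIntegral.integral_finsetSum]
      · refine Finset.sum_congr rfl fun j _ => ?_
        rw [intervalIntegral.integral_const_mul]
      · intro j _
        refine ContinuousOn.intervalIntegrable ?_
        rw [u12]
        exact continuousOn_const.mul ((hgc i).mul (hgc j))
    · intro i _
      refine ContinuousOn.intervalIntegrable ?_
      rw [u12]
      exact continuousOn_finsetSum _ fun j _ => continuousOn_const.mul ((hgc i).mul (hgc j))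
  have hcont : Continuous (fun c : Fin n → ℝ => ∫ τ in (1 : ℝ)..2, GG c τ ^ 2) := by
    simp_rw [hq]
    fun_prop
  have hpos : ∀ c : Fin n → ℝ, ‖c‖ = 1 → 0 < ∫ τ in (1 : ℝ)..2, GG c τ ^ 2 := by
    intro c hc
    have hc0 : c ≠ 0 := by
      rintro rfl
      simp at hc
    obtain ⟨τ, hτ, h1⟩ := exists_GG_ne c hc0
    refine intervalIntegral.integral_pos (by norm_num) ?_ (fun x _ => sq_nonneg _) ⟨τ, hτ, by positivity⟩
    exact ((GG_continuousOn c).mono hsub).pow 2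
  have hK : IsCompact (Metric.sphere (0 : Fin n → ℝ) 1) := isCompact_sphere _ _
  rcases (Metric.sphere (0 : Fin n → ℝ) 1).eq_empty_or_nonempty with hE | hE
  · refine ⟨1, one_pos, fun c hc => ?_⟩
    have : c ∈ Metric.sphere (0 : Fin n → ℝ) 1 := by simpa using hc
    rw [hE] at this
    exact absurd this (by simp)
  · obtain ⟨c0, hc0, hmin⟩ := hK.exists_isMinOn hE hcont.continuousOn
    refine ⟨_, hpos c0 (by simpa using hc0), fun c hc => ?_⟩
    exact hmin (by simpa using hc)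

end Pool.Agent.Helper47.NP
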