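import Pool.Agent.Helper47.NP.Kern

set_option autoImplicit false
open Real MeasureTheory Set
open scoped ENNReal
open Pool.Agent.Helper59.NP

namespace Pool.Agent.Helper47.NP

variable {η : ℝ → ℝ}

theorem lk_zero (z y : ℝ) : lk (fun _ => 0) z y = 1 / (4 * π) * sech (z - y) := by
  unfold lk Qf Pf gam gam'
  have e1 : π / 4 - 0 + (π / 4 - 0) = π / 2 := by ring
  have e2 : qq (z - y) (π / 2) = 1 / (2 * cosh (z - y)) := by
    unfold qq N; simp
  have e3 : qq (z - y) 0 = 0 := by unfold qq; simp
  rw [e1, sub_self, e2, e3]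
  unfold sech
  have := cosh_pos (z - y)
  have := pi_pos
  simp only [deriv_const, neg_zero, zero_mul, sub_zero]
  field_simp
  ring

/-- convolution kernel of the unperturbed symmetrizer -/
noncomputable def Gw (t : ℝ) : ℝ := Gk (fun _ => 0) t 0

theorem Gk_zero (x z : ℝ) : Gk (fun _ => 0) x z = Gw (x - z) := by
  unfold Gw Gk gam
  simp

theorem Gw_integrable : Integrable Gw := by
  have h1 := integrable_Gk isBump_zero 0
  have h2 : (fun z => Gk (fun _ => 0) 0 z) = fun z => Gw (0 - z) := by
    funext z; rw [Gk_zero]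
  rw [h2] at h1
  have h3 := h1.comp_sub_left 0
  refine h3.congr (Filter.Eventually.of_forall fun z => ?_)
  simp

/-- `b0` as a convolution -/
noncomputable def phi0 (v : ℝ) : ℝ := ∫ s, Gw s * (1 / (4 * π) * sech (v - s))

theorem b0_eq (x y : ℝ) : b0 x y = phi0 (x - y) := by
  unfold b0 bb kcomp phi0
  rw [← integral_sub_left_eq_self (fun s => Gw s * (1 / (4 * π) * sech (x - y - s))) volume x]
  refine integral_congr_ae (Filter.Eventually.of_forall fun z => ?_)
  simp only
  rw [Gk_zero, lk_zero]
  congr 3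
  ring

theorem integrable_phi0 (v : ℝ) : Integrable (fun s => Gw s * (1 / (4 * π) * sech (v - s))) := by
  refine Gw_integrable.mul_bdd (c := 1 / (4 * π)) ?_ (Filter.Eventually.of_forall fun z => ?_)
  · unfold sech
    have h2 := continuous_cosh.measurable
    apply Measurable.aestronglyMeasurable
    fun_prop
  · have h1 := sech_pos (v - z)
    have h2 := sech_le (v - z)
    have := pi_pos
    have h3 : 0 < 1 / (4 * π) := by positivity
    rw [norm_eq_abs, abs_of_nonneg (by positivity)]
    nlinarith

/-- the `L¹` norm of `Gw` divided by `4π` -/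
noncomputable def K0 : ℝ := 1 / (4 * π) * ∫ s, |Gw s|

theorem K0_nonneg : 0 ≤ K0 := by
  unfold K0
  have := pi_pos
  have h : 0 ≤ ∫ s, |Gw s| := integral_nonneg fun _ => abs_nonneg _
  positivity

theorem integral_Gw_mul_le {g : ℝ → ℝ} {M : ℝ} (hM : ∀ t, |g t| ≤ M) :
    |∫ s, Gw s * (1 / (4 * π) * g s)| ≤ K0 * M := by
  have hp := pi_pos
  have h1 : |∫ s, Gw s * (1 / (4 * π) * g s)| ≤ ∫ s, |Gw s| * (1 / (4 * π) * M) := by
    rw [← norm_eq_abs]
    refine norm_integral_le_of_norm_le ?_ (Filter.Eventually.of_forall fun s => ?_)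
    · exact Gw_integrable.abs.mul_const _
    · rw [norm_eq_abs, abs_mul, abs_mul, abs_of_pos (a := 1 / (4 * π)) (by positivity)]
      gcongr
      exact hM s
  refine h1.trans (le_of_eq ?_)
  rw [integral_mul_const]
  unfold K0
  ring

theorem phi0_Del4 (h v : ℝ) :
    |phi0 (v + 2 * h) - 4 * phi0 (v + h) + 6 * phi0 v - 4 * phi0 (v - h) + phi0 (v - 2 * h)|
      ≤ K0 * (45 * h ^ 4) := by
  have e : phi0 (v + 2 * h) - 4 * phi0 (v + h) + 6 * phi0 v - 4 * phi0 (v - h) + phi0 (v - 2 * h)
      = ∫ s, Gw s * (1 / (4 * π) * Del h (Del h (Del h (Del h sech))) (v - 2 * h - s)) := by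
    have i0 := integrable_phi0 v
    have i1 := integrable_phi0 (v + 2 * h)
    have i2 := (integrable_phi0 (v + h)).const_mul 4
    have i3 := (integrable_phi0 v).const_mul 6
    have i4 := (integrable_phi0 (v - h)).const_mul 4
    have i5 := integrable_phi0 (v - 2 * h)
    unfold phi0
    have j2 : Integrable (fun s => Gw s * (1 / (4 * π) * sech (v + 2 * h - s))
      - 4 * (Gw s * (1 / (4 * π) * sech (v + h - s)))) := i1.sub i2
    have j3 : Integrable (fun s => Gw s * (1 / (4 * π) * sech (v + 2 * h - s))
      - 4 * (Gw s * (1 / (4 * π) * sech (v + h - s)))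
      + 6 * (Gw s * (1 / (4 * π) * sech (v - s)))) := j2.add i3
    have j4 : Integrable (fun s => Gw s * (1 / (4 * π) * sech (v + 2 * h - s))
      - 4 * (Gw s * (1 / (4 * π) * sech (v + h - s)))
      + 6 * (Gw s * (1 / (4 * π) * sech (v - s)))
      - 4 * (Gw s * (1 / (4 * π) * sech (v - h - s)))) := j3.sub i4
    rw [← integral_const_mul, ← integral_const_mul, ← integral_const_mul, ← integral_sub i1 i2,
      ← integral_add j2 i3, ← integral_sub j3 i4, ← integral_add j4 i5]
    refine integral_congr_ae (Filter.Eventually.of_forall fun s => ?_)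
    simp only [Del]
    have e1 : v - 2 * h - s + h + h + h + h = v + 2 * h - s := by ring
    have e2 : v - 2 * h - s + h + h + h = v + h - s := by ring
    have e3 : v - 2 * h - s + h + h = v - s := by ring
    have e4 : v - 2 * h - s + h = v - h - s := by ring
    rw [e1, e2, e3, e4]
    ring
  rw [e]
  have habs : |h| * |h| * |h| * |h| = h ^ 4 := by
    rw [show |h| * |h| * |h| * |h| = (|h| * |h|) * (|h| * |h|) by ring, abs_mul_abs_self]; ring
  refine (integral_Gw_mul_le (M := 45 * h ^ 4) fun s => ?_)
  refine (sech_Del4 h _).trans (le_of_eq ?_)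
  rw [← habs]; ring

theorem phi0_continuous : Continuous phi0 := by
  refine continuous_of_dominated (F := fun v s => Gw s * (1 / (4 * π) * sech (v - s)))
    (bound := fun s => |Gw s| * (1 / (4 * π))) (fun v => (integrable_phi0 v).1) ?_ ?_ ?_
  · intro v
    refine Filter.Eventually.of_forall fun s => ?_
    have h1 := sech_pos (v - s)
    have h2 := sech_le (v - s)
    have := pi_pos
    have h3 : 0 < 1 / (4 * π) := by positivity
    rw [norm_eq_abs, abs_mul, abs_of_nonneg (a := 1 / (4 * π) * sech (v - s)) (by positivity)]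
    gcongr
    nlinarith
  · exact Gw_integrable.abs.mul_const _
  · refine Filter.Eventually.of_forall fun s => ?_
    have : Continuous sech := by
      unfold sech
      exact continuous_cosh.inv₀ fun t => (cosh_pos t).ne'
    fun_prop

end Pool.Agent.Helper47.NP
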