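import Pool.Agent.Helper59.NP.KerInst

set_option autoImplicit false
open Real MeasureTheory Set
open scoped ENNReal
open Pool.Agent.Helper59.NP

namespace Pool.Agent.Helper47.NP

/-- the family of curves -/
noncomputable def hh (η : ℝ → ℝ) (s z : ℝ) : ℝ := π / 4 - s * η z

/-- the potential -/
noncomputable def Af (η : ℝ → ℝ) (x s z : ℝ) : ℝ :=
  lg (z - x) (hh η s z + π / 4) - lg (z - x) (hh η s z - π / 4)

noncomputable def Ps (η : ℝ → ℝ) (x s z : ℝ) : ℝ :=
  pp (z - x) (hh η s z + π / 4) - pp (z - x) (hh η s z - π / 4)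

noncomputable def Qs (η : ℝ → ℝ) (x s z : ℝ) : ℝ :=
  qq (z - x) (hh η s z + π / 4) - qq (z - x) (hh η s z - π / 4)

noncomputable def Us (η : ℝ → ℝ) (x s z : ℝ) : ℝ :=
  UU (z - x) (hh η s z + π / 4) - UU (z - x) (hh η s z - π / 4)

noncomputable def Ws (η : ℝ → ℝ) (x s z : ℝ) : ℝ :=
  WW (z - x) (hh η s z + π / 4) - WW (z - x) (hh η s z - π / 4)

noncomputable def Bf (η : ℝ → ℝ) (y s z : ℝ) : ℝ :=
  -Qs η y s z - s * deriv η z * Ps η y s z

noncomputable def Cf (η : ℝ → ℝ) (y s z : ℝ) : ℝ := -(η z * Ps η y s z)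

/-- the common mixed derivative -/
noncomputable def Df (η : ℝ → ℝ) (y s z : ℝ) : ℝ :=
  -(η z * Us η y s z) - deriv η z * Ps η y s z - s * deriv η z * (η z * Ws η y s z)

variable {η : ℝ → ℝ}

theorem hasDerivAt_hh_s (s z : ℝ) : HasDerivAt (fun s => hh η s z) (-(η z)) s := by
  unfold hh
  have := ((hasDerivAt_id s).mul_const (η z)).const_sub (π / 4)
  simpa using this

theorem hasDerivAt_hh_z (h : IsBump η) (s z : ℝ) :
    HasDerivAt (fun z => hh η s z) (-(s * deriv η z)) z := by
  unfold hh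
  exact ((h.differentiable z).hasDerivAt.const_mul s).const_sub (π / 4)

section derivs

variable {x s z : ℝ}

theorem hasDerivAt_sub' (x z : ℝ) : HasDerivAt (fun z : ℝ => z - x) 1 z :=
  (hasDerivAt_id z).sub_const x

theorem hasDerivAt_Af_s (hne : z - x ≠ 0) :
    HasDerivAt (fun s => Af η x s z) (-(η z * Qs η x s z)) s := by
  have hN : ∀ θ, N (z - x) θ ≠ 0 := fun θ => (N_pos_of_ne hne θ).ne'
  have h1 := hasDerivAt_lg (X := fun _ => z - x) (θ := fun s => hh η s z + π / 4)
    (hasDerivAt_const s (z - x)) ((hasDerivAt_hh_s (η := η) s z).add_const (π / 4)) (hN _)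
  have h2 := hasDerivAt_lg (X := fun _ => z - x) (θ := fun s => hh η s z - π / 4)
    (hasDerivAt_const s (z - x)) ((hasDerivAt_hh_s (η := η) s z).sub_const (π / 4)) (hN _)
  convert! h1.sub h2 using 1
  unfold Qs
  ring

theorem hasDerivAt_Af_z (h : IsBump η) (hne : z - x ≠ 0) :
    HasDerivAt (fun z => Af η x s z) (Ps η x s z - s * deriv η z * Qs η x s z) z := by
  have hN : ∀ θ, N (z - x) θ ≠ 0 := fun θ => (N_pos_of_ne hne θ).ne'
  have h1 := hasDerivAt_lg (X := fun z => z - x) (θ := fun z => hh η s z + π / 4)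
    (hasDerivAt_sub' x z) ((hasDerivAt_hh_z h s z).add_const (π / 4)) (hN _)
  have h2 := hasDerivAt_lg (X := fun z => z - x) (θ := fun z => hh η s z - π / 4)
    (hasDerivAt_sub' x z) ((hasDerivAt_hh_z h s z).sub_const (π / 4)) (hN _)
  convert! h1.sub h2 using 1
  unfold Qs Ps
  ring

theorem hasDerivAt_Ps_s (hne : z - x ≠ 0) :
    HasDerivAt (fun s => Ps η x s z) (η z * Ws η x s z) s := by
  have hN : ∀ θ, N (z - x) θ ≠ 0 := fun θ => (N_pos_of_ne hne θ).ne'
  have h1 := hasDerivAt_pp (X := fun _ => z - x) (θ := fun s => hh η s z + π / 4)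
    (hasDerivAt_const s (z - x)) ((hasDerivAt_hh_s (η := η) s z).add_const (π / 4)) (hN _)
  have h2 := hasDerivAt_pp (X := fun _ => z - x) (θ := fun s => hh η s z - π / 4)
    (hasDerivAt_const s (z - x)) ((hasDerivAt_hh_s (η := η) s z).sub_const (π / 4)) (hN _)
  convert! h1.sub h2 using 1
  unfold Ws
  ring

theorem hasDerivAt_Qs_s (hne : z - x ≠ 0) :
    HasDerivAt (fun s => Qs η x s z) (η z * Us η x s z) s := by
  have hN : ∀ θ, N (z - x) θ ≠ 0 := fun θ => (N_pos_of_ne hne θ).ne'
  have h1 := hasDerivAt_qq (X := fun _ => z - x) (θ := fun s => hh η s z + π / 4)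
    (hasDerivAt_const s (z - x)) ((hasDerivAt_hh_s (η := η) s z).add_const (π / 4)) (hN _)
  have h2 := hasDerivAt_qq (X := fun _ => z - x) (θ := fun s => hh η s z - π / 4)
    (hasDerivAt_const s (z - x)) ((hasDerivAt_hh_s (η := η) s z).sub_const (π / 4)) (hN _)
  convert! h1.sub h2 using 1
  unfold Us
  ring

theorem hasDerivAt_Ps_z (h : IsBump η) (hne : z - x ≠ 0) :
    HasDerivAt (fun z => Ps η x s z) (Us η x s z + s * deriv η z * Ws η x s z) z := by
  have hN : ∀ θ, N (z - x) θ ≠ 0 := fun θ => (N_pos_of_ne hne θ).ne'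
  have h1 := hasDerivAt_pp (X := fun z => z - x) (θ := fun z => hh η s z + π / 4)
    (hasDerivAt_sub' x z) ((hasDerivAt_hh_z h s z).add_const (π / 4)) (hN _)
  have h2 := hasDerivAt_pp (X := fun z => z - x) (θ := fun z => hh η s z - π / 4)
    (hasDerivAt_sub' x z) ((hasDerivAt_hh_z h s z).sub_const (π / 4)) (hN _)
  convert! h1.sub h2 using 1
  unfold Us Ws
  ring

theorem hasDerivAt_Bf_s (hne : z - x ≠ 0) :
    HasDerivAt (fun s => Bf η x s z) (Df η x s z) s := by
  have h1 := hasDerivAt_Qs_s (η := η) (s := s) hne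
  have h2 := hasDerivAt_Ps_s (η := η) (s := s) hne
  have h3 : HasDerivAt (fun s : ℝ => s * deriv η z) (deriv η z) s := by
    simpa using (hasDerivAt_id s).mul_const (deriv η z)
  convert! h1.neg.sub (h3.mul h2) using 1
  unfold Df
  ring

theorem hasDerivAt_Cf_z (h : IsBump η) (hne : z - x ≠ 0) :
    HasDerivAt (fun z => Cf η x s z) (Df η x s z) z := by
  have h1 := hasDerivAt_Ps_z (s := s) h hne
  convert! ((h.differentiable z).hasDerivAt.mul h1).neg using 1
  unfold Df
  ring

end derivs

section cont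

theorem continuousOn_frac {α : Type*} [TopologicalSpace α] {f : α → ℝ} {X θ : α → ℝ} {S : Set α}
    (hf : Continuous f) (hX : Continuous X) (hθ : Continuous θ) (hS : ∀ p ∈ S, X p ≠ 0) (n : ℕ) :
    ContinuousOn (fun p => f p / (2 * N (X p) (θ p) ^ n)) S := by
  refine hf.continuousOn.div ?_ ?_
  · unfold N
    have h1 : Continuous fun p => cosh (X p) := continuous_cosh.comp hX
    have h2 : Continuous fun p => cos (θ p) := continuous_cos.comp hθ
    exact (continuous_const.mul ((h1.sub h2).pow n)).continuousOn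
  · intro p hp
    have := N_pos_of_ne (hS p hp) (θ p)
    positivity

section gen

variable {α : Type*} [TopologicalSpace α] {X θ : α → ℝ} {S : Set α}

theorem continuousOn_pp (hX : Continuous X) (hθ : Continuous θ) (hS : ∀ p ∈ S, X p ≠ 0) :
    ContinuousOn (fun p => pp (X p) (θ p)) S := by
  unfold pp
  simpa using continuousOn_frac (continuous_sinh.comp hX) hX hθ hS 1

theorem continuousOn_qq (hX : Continuous X) (hθ : Continuous θ) (hS : ∀ p ∈ S, X p ≠ 0) :
    ContinuousOn (fun p => qq (X p) (θ p)) S := by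
  unfold qq
  simpa using continuousOn_frac (continuous_sin.comp hθ) hX hθ hS 1

theorem continuousOn_UU (hX : Continuous X) (hθ : Continuous θ) (hS : ∀ p ∈ S, X p ≠ 0) :
    ContinuousOn (fun p => UU (X p) (θ p)) S := by
  unfold UU
  exact continuousOn_frac (continuous_const.sub
    ((continuous_cosh.comp hX).mul (continuous_cos.comp hθ))) hX hθ hS 2

theorem continuousOn_WW (hX : Continuous X) (hθ : Continuous θ) (hS : ∀ p ∈ S, X p ≠ 0) :
    ContinuousOn (fun p => WW (X p) (θ p)) S := by
  unfold WW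
  exact continuousOn_frac ((continuous_sinh.comp hX).mul (continuous_sin.comp hθ)) hX hθ hS 2

theorem continuousOn_lg (hX : Continuous X) (hθ : Continuous θ) (hS : ∀ p ∈ S, X p ≠ 0) :
    ContinuousOn (fun p => lg (X p) (θ p)) S := by
  unfold lg
  refine continuousOn_const.mul (ContinuousOn.log ?_ ?_)
  · unfold N
    have h1 : Continuous fun p => cosh (X p) := continuous_cosh.comp hX
    have h2 : Continuous fun p => cos (θ p) := continuous_cos.comp hθ
    exact (h1.sub h2).continuousOn
  · intro p hp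
    exact (N_pos_of_ne (hS p hp) (θ p)).ne'

end gen

variable {S : Set (ℝ × ℝ)}

theorem continuous_hh (h : IsBump η) : Continuous (fun p : ℝ × ℝ => hh η p.1 p.2) := by
  unfold hh
  have := h.smooth.continuous
  fun_prop

variable {x : ℝ}

theorem Ps_continuousOn (h : IsBump η) (hS : ∀ p ∈ S, p.2 - x ≠ 0) :
    ContinuousOn (fun p : ℝ × ℝ => Ps η x p.1 p.2) S := by
  have hX : Continuous fun p : ℝ × ℝ => p.2 - x := by fun_prop
  exact (continuousOn_pp hX ((continuous_hh h).add continuous_const) hS).sub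
    (continuousOn_pp hX ((continuous_hh h).sub continuous_const) hS)

theorem Qs_continuousOn (h : IsBump η) (hS : ∀ p ∈ S, p.2 - x ≠ 0) :
    ContinuousOn (fun p : ℝ × ℝ => Qs η x p.1 p.2) S := by
  have hX : Continuous fun p : ℝ × ℝ => p.2 - x := by fun_prop
  exact (continuousOn_qq hX ((continuous_hh h).add continuous_const) hS).sub
    (continuousOn_qq hX ((continuous_hh h).sub continuous_const) hS)

theorem Us_continuousOn (h : IsBump η) (hS : ∀ p ∈ S, p.2 - x ≠ 0) :
    ContinuousOn (fun p : ℝ × ℝ => Us η x p.1 p.2) S := by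
  have hX : Continuous fun p : ℝ × ℝ => p.2 - x := by fun_prop
  exact (continuousOn_UU hX ((continuous_hh h).add continuous_const) hS).sub
    (continuousOn_UU hX ((continuous_hh h).sub continuous_const) hS)

theorem Ws_continuousOn (h : IsBump η) (hS : ∀ p ∈ S, p.2 - x ≠ 0) :
    ContinuousOn (fun p : ℝ × ℝ => Ws η x p.1 p.2) S := by
  have hX : Continuous fun p : ℝ × ℝ => p.2 - x := by fun_prop
  exact (continuousOn_WW hX ((continuous_hh h).add continuous_const) hS).sub
    (continuousOn_WW hX ((continuous_hh h).sub continuous_const) hS)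

theorem Af_continuousOn (h : IsBump η) (hS : ∀ p ∈ S, p.2 - x ≠ 0) :
    ContinuousOn (fun p : ℝ × ℝ => Af η x p.1 p.2) S := by
  have hX : Continuous fun p : ℝ × ℝ => p.2 - x := by fun_prop
  exact (continuousOn_lg hX ((continuous_hh h).add continuous_const) hS).sub
    (continuousOn_lg hX ((continuous_hh h).sub continuous_const) hS)

theorem Bf_continuousOn (h : IsBump η) (hS : ∀ p ∈ S, p.2 - x ≠ 0) :
    ContinuousOn (fun p : ℝ × ℝ => Bf η x p.1 p.2) S := by
  unfold Bf
  have h1 : Continuous fun p : ℝ × ℝ => p.1 * deriv η p.2 := by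
    have := h.contDiff_deriv.continuous
    fun_prop
  exact (Qs_continuousOn h hS).neg.sub (h1.continuousOn.mul (Ps_continuousOn h hS))

theorem Cf_continuousOn (h : IsBump η) (hS : ∀ p ∈ S, p.2 - x ≠ 0) :
    ContinuousOn (fun p : ℝ × ℝ => Cf η x p.1 p.2) S := by
  unfold Cf
  have h1 : Continuous fun p : ℝ × ℝ => η p.2 := by
    have := h.smooth.continuous
    fun_prop
  exact (h1.continuousOn.mul (Ps_continuousOn h hS)).neg

theorem Df_continuousOn (h : IsBump η) (hS : ∀ p ∈ S, p.2 - x ≠ 0) :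
    ContinuousOn (fun p : ℝ × ℝ => Df η x p.1 p.2) S := by
  unfold Df
  have h1 : Continuous fun p : ℝ × ℝ => p.1 * deriv η p.2 := by
    have := h.contDiff_deriv.continuous
    fun_prop
  have h2 : Continuous fun p : ℝ × ℝ => deriv η p.2 := by
    have := h.contDiff_deriv.continuous
    fun_prop
  have h3 : Continuous fun p : ℝ × ℝ => η p.2 := by
    have := h.smooth.continuous
    fun_prop
  exact ((h3.continuousOn.mul (Us_continuousOn h hS)).neg.sub
    (h2.continuousOn.mul (Ps_continuousOn h hS))).sub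
    (h1.continuousOn.mul (h3.continuousOn.mul (Ws_continuousOn h hS)))

end cont

theorem eta_zero (h : IsBump η) : η 0 = 0 := by
  have h1 : Filter.Tendsto η (nhdsWithin 0 (Ioi 0)) (nhds (η 0)) :=
    h.smooth.continuous.continuousAt.tendsto.mono_left nhdsWithin_le_nhds
  have h2 : Filter.Tendsto η (nhdsWithin 0 (Ioi 0)) (nhds 0) := by
    refine tendsto_const_nhds.congr' ?_
    filter_upwards [self_mem_nhdsWithin] with z hz
    exact (h.supp z fun hz' => absurd hz'.2 (not_le.mpr hz)).symm
  exact tendsto_nhds_unique h1 h2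

theorem eta_neg_one (h : IsBump η) : η (-1) = 0 := by
  have h1 : Filter.Tendsto η (nhdsWithin (-1) (Iio (-1))) (nhds (η (-1))) :=
    h.smooth.continuous.continuousAt.tendsto.mono_left nhdsWithin_le_nhds
  have h2 : Filter.Tendsto η (nhdsWithin (-1) (Iio (-1))) (nhds 0) := by
    refine tendsto_const_nhds.congr' ?_
    filter_upwards [self_mem_nhdsWithin] with z hz
    exact (h.supp z fun hz' => absurd hz'.1 (not_le.mpr hz)).symm
  exact tendsto_nhds_unique h1 h2

/-- the basic integral identity -/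
theorem integral_AB (h : IsBump η) {x y : ℝ} (hx : 0 < x) (hy : 0 < y) :
    ∫ z in (-1 : ℝ)..0, (Af η x 1 z * Bf η y 1 z - Af η x 0 z * Bf η y 0 z)
      = ∫ z in (-1 : ℝ)..0, ∫ s in (0 : ℝ)..1,
        η z * (Ps η x s z * Ps η y s z + Qs η x s z * Qs η y s z) := by
  -- the two derivatives
  set E : ℝ → ℝ → ℝ := fun s z =>
    -(η z * Qs η x s z) * Bf η y s z + Af η x s z * Df η y s z with hE
  set F : ℝ → ℝ → ℝ := fun s z =>
    (Ps η x s z - s * deriv η z * Qs η x s z) * Cf η y s z + Af η x s z * Df η y s z with hF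
  have hnx : ∀ z ∈ Icc (-1 : ℝ) 0, z - x ≠ 0 := fun z hz => by
    have := hz.2; intro h; linarith
  have hny : ∀ z ∈ Icc (-1 : ℝ) 0, z - y ≠ 0 := fun z hz => by
    have := hz.2; intro h; linarith
  set S : Set (ℝ × ℝ) := {p | p.2 ≤ 0} with hS
  have hSx : ∀ p ∈ S, p.2 - x ≠ 0 := fun p hp => by
    have : p.2 ≤ 0 := hp
    intro h; linarith
  have hSy : ∀ p ∈ S, p.2 - y ≠ 0 := fun p hp => by
    have : p.2 ≤ 0 := hp
    intro h; linarith
  have cη : Continuous fun p : ℝ × ℝ => η p.2 := by
    have := h.smooth.continuous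
    fun_prop
  have cη' : Continuous fun p : ℝ × ℝ => p.1 * deriv η p.2 := by
    have := h.contDiff_deriv.continuous
    fun_prop
  have cE : ContinuousOn (fun p : ℝ × ℝ => E p.1 p.2) S := by
    exact ((cη.continuousOn.mul (Qs_continuousOn h hSx)).neg.mul (Bf_continuousOn h hSy)).add
      ((Af_continuousOn h hSx).mul (Df_continuousOn h hSy))
  have cF : ContinuousOn (fun p : ℝ × ℝ => F p.1 p.2) S := by
    exact (((Ps_continuousOn h hSx).sub (cη'.continuousOn.mul (Qs_continuousOn h hSx))).mul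
      (Cf_continuousOn h hSy)).add ((Af_continuousOn h hSx).mul (Df_continuousOn h hSy))
  -- slices
  have sliceS : ∀ (G : ℝ → ℝ → ℝ), ContinuousOn (fun p : ℝ × ℝ => G p.1 p.2) S → ∀ z ∈ Icc (-1 : ℝ) 0,
      Continuous (fun s => G s z) := by
    intro G hG z hz
    have : ContinuousOn (fun s : ℝ => G s z) univ := by
      have := hG.comp (f := fun s : ℝ => (s, z)) (s := univ) (by fun_prop)
        (fun s _ => show z ≤ 0 from hz.2)
      exact this
    exact continuousOn_univ.mp this
  have sliceZ : ∀ (G : ℝ → ℝ → ℝ), ContinuousOn (fun p : ℝ × ℝ => G p.1 p.2) S → ∀ s : ℝ,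
      ContinuousOn (fun z => G s z) (Icc (-1 : ℝ) 0) := by
    intro G hG s
    exact hG.comp (f := fun z : ℝ => (s, z)) (by fun_prop) (fun z hz => show z ≤ 0 from hz.2)
  have u10 : uIcc (-1 : ℝ) 0 = Icc (-1) 0 := uIcc_of_le (by norm_num)
  -- first
  have h1 : ∀ z ∈ Icc (-1 : ℝ) 0, ∫ s in (0 : ℝ)..1, E s z
      = Af η x 1 z * Bf η y 1 z - Af η x 0 z * Bf η y 0 z := by
    intro z hz
    refine intervalIntegral.integral_eq_sub_of_hasDerivAt
      (f := fun s => Af η x s z * Bf η y s z) (fun s _ => ?_)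
      ((sliceS E cE z hz).intervalIntegrable _ _)
    exact (hasDerivAt_Af_s (hnx z hz)).mul (hasDerivAt_Bf_s (hny z hz))
  -- second
  have h2 : ∀ s : ℝ, ∫ z in (-1 : ℝ)..0, F s z = 0 := by
    intro s
    have := intervalIntegral.integral_eq_sub_of_hasDerivAt (a := -1) (b := 0)
      (f := fun z => Af η x s z * Cf η y s z) (f' := fun z => F s z) (fun z hz => by
        rw [u10] at hz
        exact (hasDerivAt_Af_z h (hnx z hz)).mul (hasDerivAt_Cf_z h (hny z hz)))
      (ContinuousOn.intervalIntegrable (by rw [u10]; exact sliceZ F cF s))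
    rw [this]
    unfold Cf
    rw [eta_zero h, eta_neg_one h]
    ring
  have hint : ∀ (G : ℝ → ℝ → ℝ), ContinuousOn (fun p : ℝ × ℝ => G p.1 p.2) S →
      IntegrableOn (fun p : ℝ × ℝ => G p.1 p.2) (uIoc (0 : ℝ) 1 ×ˢ uIoc (-1 : ℝ) 0) := by
    intro G hG
    have : IntegrableOn (fun p : ℝ × ℝ => G p.1 p.2) (Icc (0 : ℝ) 1 ×ˢ Icc (-1 : ℝ) 0) :=
      (hG.mono fun p hp => hp.2.2).integrableOn_compact (isCompact_Icc.prod isCompact_Icc)
    refine this.mono_set ?_
    rw [uIoc_of_le (by norm_num), uIoc_of_le (by norm_num)]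
    exact prod_mono Ioc_subset_Icc_self Ioc_subset_Icc_self
  have h3 : ∫ z in (-1 : ℝ)..0, ∫ s in (0 : ℝ)..1, F s z = 0 := by
    rw [← intervalIntegral_intervalIntegral_swap (F := F) (hint F cF)]
    simp [h2]
  calc ∫ z in (-1 : ℝ)..0, (Af η x 1 z * Bf η y 1 z - Af η x 0 z * Bf η y 0 z)
      = ∫ z in (-1 : ℝ)..0, ∫ s in (0 : ℝ)..1, E s z := by
        refine intervalIntegral.integral_congr fun z hz => ?_
        rw [u10] at hz
        exact (h1 z hz).symm
    _ = (∫ z in (-1 : ℝ)..0, ∫ s in (0 : ℝ)..1, E s z)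
        - ∫ z in (-1 : ℝ)..0, ∫ s in (0 : ℝ)..1, F s z := by rw [h3, sub_zero]
    _ = ∫ z in (-1 : ℝ)..0, ((∫ s in (0 : ℝ)..1, E s z) - ∫ s in (0 : ℝ)..1, F s z) := by
        have hE' : IntervalIntegrable (fun z => ∫ s in (0 : ℝ)..1, E s z) volume (-1) 0 := by
          have := (hint E cE)
          rw [intervalIntegrable_iff]
          have h5 : Integrable (fun p : ℝ × ℝ => E p.1 p.2)
              ((volume.restrict (uIoc (0 : ℝ) 1)).prod (volume.restrict (uIoc (-1 : ℝ) 0))) := by
            rw [Measure.prod_restrict]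
            exact this
          have h6 := h5.integral_prod_right
          refine h6.congr (Filter.Eventually.of_forall fun z => ?_)
          simp only
          rw [intervalIntegral.integral_of_le (by norm_num), uIoc_of_le (by norm_num)]
        have hF' : IntervalIntegrable (fun z => ∫ s in (0 : ℝ)..1, F s z) volume (-1) 0 := by
          have := (hint F cF)
          rw [intervalIntegrable_iff]
          have h5 : Integrable (fun p : ℝ × ℝ => F p.1 p.2)
              ((volume.restrict (uIoc (0 : ℝ) 1)).prod (volume.restrict (uIoc (-1 : ℝ) 0))) := by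
            rw [Measure.prod_restrict]
            exact this
          have h6 := h5.integral_prod_right
          refine h6.congr (Filter.Eventually.of_forall fun z => ?_)
          simp only
          rw [intervalIntegral.integral_of_le (by norm_num), uIoc_of_le (by norm_num)]
        rw [intervalIntegral.integral_sub hE' hF']
    _ = _ := by
        refine intervalIntegral.integral_congr fun z hz => ?_
        rw [u10] at hz
        rw [← intervalIntegral.integral_sub ((sliceS E cE z hz).intervalIntegrable _ _)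
          ((sliceS F cF z hz).intervalIntegrable _ _)]
        refine intervalIntegral.integral_congr fun s _ => ?_
        simp only [hE, hF, Bf, Cf]
        ring

end Pool.Agent.Helper47.NP
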