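import Pool.Agent.Helper47.NP.Ident

set_option autoImplicit false
open Real MeasureTheory Set
open scoped ENNReal
open Pool.Agent.Helper59.NP

namespace Pool.Agent.Helper47.NP

variable {η : ℝ → ℝ}

theorem lg_neg (X θ : ℝ) : lg (-X) θ = lg X θ := by unfold lg; rw [N_neg]

theorem lg_neg' (X θ : ℝ) : lg X (-θ) = lg X θ := by unfold lg; rw [N_neg']

theorem isBump_zero : IsBump (fun _ : ℝ => (0 : ℝ)) where
  smooth := contDiff_const
  supp := fun _ _ => rfl
  nonneg := fun _ => le_rfl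
  small := fun _ => by norm_num

theorem Gk_eq (h : IsBump η) {x : ℝ} (hx : 0 < x) (z : ℝ) : Gk η x z = Af η x 1 z := by
  unfold Gk Af hh
  rw [h.gam_eq (fun hx' => absurd hx'.2 (not_le.mpr hx))]
  unfold gam
  rw [← lg_neg (z - x), ← lg_neg (z - x), ← lg_neg' _ (π / 4 - 1 * η z - π / 4)]
  congr 2 <;> ring

theorem lk_eq (h : IsBump η) {y : ℝ} (hy : 0 < y) (z : ℝ) :
    lk η z y = -(1 / (2 * π)) * Bf η y 1 z := by
  unfold lk Bf Qs Ps Qf Pf hh
  rw [h.gam_eq (fun hx' => absurd hx'.2 (not_le.mpr hy))]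
  unfold gam gam'
  rw [one_mul]
  ring

theorem Af_zero (x z : ℝ) : Af η x 0 z = Af (fun _ => 0) x 1 z := by
  unfold Af hh
  simp

theorem Bf_zero (y z : ℝ) : Bf η y 0 z = Bf (fun _ => 0) y 1 z := by
  unfold Bf Qs Ps hh
  simp

/-- the composed kernel -/
noncomputable def bb (η : ℝ → ℝ) (x y : ℝ) : ℝ := kcomp (Gk η) (lk η) x y

/-- the composed kernel of the unperturbed operator -/
noncomputable def b0 (x y : ℝ) : ℝ := bb (fun _ => 0) x y

theorem integrable_Gk (h : IsBump η) (x : ℝ) : Integrable (fun z => Gk η x z) := by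
  have h1 : Integrable (fun z => HG (x - z)) := HG_integrable.comp_sub_left x
  refine h1.mono' ?_ (Filter.Eventually.of_forall fun z => ?_)
  · have : Measurable (fun p : ℝ × ℝ => Gk η p.1 p.2) := h.gk_meas
    exact (this.comp (measurable_const.prodMk measurable_id)).aestronglyMeasurable
  · exact h.Gk_bound x z

theorem lk_abs_le (h : IsBump η) (z y : ℝ) : |lk η z y| ≤ h.Cl := by
  refine (h.lk_bound z y).trans ?_
  have h1 := h.Cl_pos
  have h8 : (cosh (z - y))⁻¹ ≤ 1 := inv_le_one_of_one_le₀ (one_le_cosh _)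
  nlinarith

theorem integrable_Gk_lk (h : IsBump η) (x y : ℝ) :
    Integrable (fun z => Gk η x z * lk η z y) := by
  refine (integrable_Gk h x).mul_bdd (c := h.Cl) ?_ (Filter.Eventually.of_forall fun z => ?_)
  · have : Measurable (fun p : ℝ × ℝ => lk η p.1 p.2) := h.lk_meas
    exact (this.comp (measurable_id.prodMk measurable_const)).aestronglyMeasurable
  · exact lk_abs_le h z y

/-- the correction -/
noncomputable def RR (η : ℝ → ℝ) (x y : ℝ) : ℝ :=
  ∫ z in (-1 : ℝ)..0, ∫ s in (0 : ℝ)..1,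
        η z * (Ps η x s z * Ps η y s z + Qs η x s z * Qs η y s z)

theorem bb_eq (h : IsBump η) {x y : ℝ} (hx : 0 < x) (hy : 0 < y) :
    bb η x y = b0 x y - 1 / (2 * π) * RR η x y := by
  have h1 : bb η x y - b0 x y = ∫ z, (Gk η x z * lk η z y
      - Gk (fun _ => 0) x z * lk (fun _ => 0) z y) := by
    unfold b0 bb kcomp
    rw [integral_sub (integrable_Gk_lk h x y) (integrable_Gk_lk isBump_zero x y)]
  have h2 : ∀ z, z ∉ Icc (-1 : ℝ) 0 → (Gk η x z * lk η z y
      - Gk (fun _ => 0) x z * lk (fun _ => 0) z y) = 0 := by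
    intro z hz
    have e1 : Gk η x z = Gk (fun _ => 0) x z := by
      unfold Gk
      rw [h.gam_eq (fun hx' => absurd hx'.2 (not_le.mpr hx)), h.gam_eq hz]
      unfold gam
      simp
    have hy' : y ∉ Icc (-1 : ℝ) 0 := fun hx' => absurd hx'.2 (not_le.mpr hy)
    have e2 : lk η z y = lk (fun _ => 0) z y := by
      have h3 := h.ld_eq_zero hz hy'
      have h4 := isBump_zero.ld_eq_zero hz hy'
      unfold ld at h3 h4
      linarith
    rw [e1, e2, sub_self]
  have h3 : ∫ z, (Gk η x z * lk η z y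
      - Gk (fun _ => 0) x z * lk (fun _ => 0) z y) = ∫ z in (-1 : ℝ)..0, (Gk η x z * lk η z y
      - Gk (fun _ => 0) x z * lk (fun _ => 0) z y) := by
    rw [intervalIntegral.integral_of_le (by norm_num), ← integral_Icc_eq_integral_Ioc,
      setIntegral_eq_integral_of_forall_compl_eq_zero h2]
  have h4 : ∫ z in (-1 : ℝ)..0, (Gk η x z * lk η z y
      - Gk (fun _ => 0) x z * lk (fun _ => 0) z y)
      = -(1 / (2 * π)) * RR η x y := by
    unfold RR
    rw [← integral_AB h hx hy, ← intervalIntegral.integral_const_mul]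
    refine intervalIntegral.integral_congr fun z _ => ?_
    rw [Gk_eq h hx, Gk_eq isBump_zero hx, lk_eq h hy, lk_eq isBump_zero hy, Af_zero, Bf_zero]
    ring
  rw [h3, h4] at h1
  linarith

/-- forward difference -/
def Del (h : ℝ) (f : ℝ → ℝ) (x : ℝ) : ℝ := f (x + h) - f x

theorem Del_le {f f' : ℝ → ℝ} (hf : ∀ x, HasDerivAt f (f' x) x) {M : ℝ} (hM : ∀ x, |f' x| ≤ M)
    (h x : ℝ) : |Del h f x| ≤ M * |h| := by
  have := Convex.norm_image_sub_le_of_norm_hasDerivWithin_le (f := f) (f' := f')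
      (s := univ) (x := x) (y := x + h) (C := M) (fun z _ => (hf z).hasDerivWithinAt)
      (fun z _ => hM z) convex_univ (mem_univ _) (mem_univ _)
  simpa [Del] using this

theorem Del_hasDerivAt {f f' : ℝ → ℝ} (hf : ∀ x, HasDerivAt f (f' x) x) (h x : ℝ) :
    HasDerivAt (Del h f) (Del h f' x) x := by
  unfold Del
  exact ((hf (x + h)).comp_add_const x h).sub (hf x)

/-- `1 / cosh` -/
noncomputable def sech (t : ℝ) : ℝ := (cosh t)⁻¹

theorem sech_pos (t : ℝ) : 0 < sech t := inv_pos.mpr (cosh_pos t)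

theorem sech_le (t : ℝ) : sech t ≤ 1 := inv_le_one_of_one_le₀ (one_le_cosh t)

theorem sech_mul (t : ℝ) : sech t * cosh t = 1 := inv_mul_cancel₀ (cosh_pos t).ne'

theorem hasDerivAt_sech (t : ℝ) : HasDerivAt sech (-(sinh t * sech t ^ 2)) t := by
  have := (hasDerivAt_cosh t).inv (cosh_pos t).ne'
  convert! this using 1
  unfold sech
  field_simp

theorem hasDerivAt_sech1 (t : ℝ) :
    HasDerivAt (fun t => -(sinh t * sech t ^ 2)) (sech t - 2 * sech t ^ 3) t := by
  have h := ((hasDerivAt_sinh t).mul ((hasDerivAt_sech t).pow 2)).neg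
  convert! h using 1
  have h1 := sech_mul t
  have h2 := cosh_sq t
  push_cast
  have e : sech t ^ 2 * cosh t ^ 2 = 1 := by rw [← mul_pow, h1, one_pow]
  rw [h2] at e
  simp only [Pi.pow_apply]
  linear_combination (sech t) * h1 - 2 * sech t * e

theorem hasDerivAt_sech2 (t : ℝ) :
    HasDerivAt (fun t => sech t - 2 * sech t ^ 3)
      (-(sinh t * sech t ^ 2) + 6 * (sinh t * sech t ^ 4)) t := by
  have h := (hasDerivAt_sech t).sub (((hasDerivAt_sech t).pow 3).const_mul 2)
  convert! h using 1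
  push_cast
  ring

theorem hasDerivAt_sech3 (t : ℝ) :
    HasDerivAt (fun t => -(sinh t * sech t ^ 2) + 6 * (sinh t * sech t ^ 4))
      (sech t - 20 * sech t ^ 3 + 24 * sech t ^ 5) t := by
  have h := (hasDerivAt_sech1 t).add
    (((hasDerivAt_sinh t).mul ((hasDerivAt_sech t).pow 4)).const_mul 6)
  convert! h using 1
  have h1 := sech_mul t
  have h2 := cosh_sq t
  push_cast
  have e : sech t ^ 2 * cosh t ^ 2 = 1 := by rw [← mul_pow, h1, one_pow]
  rw [h2] at e
  simp only [Pi.pow_apply]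
  linear_combination (-6 * sech t ^ 3) * h1 + 24 * sech t ^ 3 * e

theorem sech4_le (t : ℝ) : |sech t - 20 * sech t ^ 3 + 24 * sech t ^ 5| ≤ 45 := by
  have h0 := sech_pos t
  have h1 := sech_le t
  have h3 : sech t ^ 3 ≤ 1 := pow_le_one₀ h0.le h1
  have h5 : sech t ^ 5 ≤ 1 := pow_le_one₀ h0.le h1
  have h3' : 0 < sech t ^ 3 := by positivity
  have h5' : 0 < sech t ^ 5 := by positivity
  rw [abs_le]
  constructor <;> linarith

theorem sech_Del4 (h t : ℝ) : |Del h (Del h (Del h (Del h sech))) t| ≤ 45 * |h| * |h| * |h| * |h| := by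
  have b3 : ∀ x, |Del h (fun t => -(sinh t * sech t ^ 2) + 6 * (sinh t * sech t ^ 4)) x|
      ≤ 45 * |h| := fun x => Del_le hasDerivAt_sech3 sech4_le h x
  have b2 : ∀ x, |Del h (Del h (fun t => sech t - 2 * sech t ^ 3)) x| ≤ 45 * |h| * |h| :=
    fun x => Del_le (Del_hasDerivAt hasDerivAt_sech2 h) b3 h x
  have b1 : ∀ x, |Del h (Del h (Del h (fun t => -(sinh t * sech t ^ 2)))) x|
      ≤ 45 * |h| * |h| * |h| :=
    fun x => Del_le (Del_hasDerivAt (Del_hasDerivAt hasDerivAt_sech1 h) h) b2 h x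
  exact Del_le (Del_hasDerivAt (Del_hasDerivAt (Del_hasDerivAt hasDerivAt_sech h) h) h) b1 h t

end Pool.Agent.Helper47.NP
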