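import Pool.Agent.Helper47.NP.RRs

set_option autoImplicit false
open Real MeasureTheory Set
open scoped ENNReal
open Pool.Agent.Helper59.NP

namespace Pool.Agent.Helper47.NP

variable {η : ℝ → ℝ}

theorem DcDc_RR_ge (h : IsBump η) {M : ℝ} (hM0 : 0 < M) (hM : ∀ z, η z ≤ M * z ^ 2) {n : ℕ}
    {c0 : ℝ} (hc0 : 0 < c0) (h4 : ∀ x ∈ Icc (-(1 / 2) : ℝ) 0, c0 * x ^ 4 ≤ η x)
    {m : ℝ} {c : Fin n → ℝ} (hc : ∀ j, |c j| ≤ 1) (hm : m ≤ ∫ τ in (1 : ℝ)..2, GG c τ ^ 2)
    {k : ℝ} (hk : 3 * n + 4 ≤ k) :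
    c0 / k ^ 5 * (1 / 2 * k ^ 2 * m - (n * (4 * (3 + M ^ 2))) ^ 2)
      ≤ Dc c (fun t => Dc c (fun u => RR η (t / k) (u / k))) := by
  have hn0 : (0 : ℝ) ≤ 3 * n := by positivity
  have hk0 : 0 < k := by linarith
  have hk4 : 4 ≤ k := by linarith
  set e : ℝ := n * (4 * (3 + M ^ 2)) with he
  rw [DcDc_RR h c hk0]
  set F : ℝ × ℝ → ℝ := fun p => η p.2 * ((Dc c fun t => Ps η (t / k) p.1 p.2) ^ 2
          + (Dc c fun t => Qs η (t / k) p.1 p.2) ^ 2) with hF
  have hFc : ContinuousOn F box := (eta_cont h).continuousOn.mul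
    (((DcPs_continuousOn h c hk0).pow 2).add ((DcQs_continuousOn h c hk0).pow 2))
  have hFi : IntegrableOn F box := hFc.integrableOn_compact box_compact
  have hF0 : ∀ p, 0 ≤ F p := fun p => mul_nonneg (h.nonneg _) (by positivity)
  set T : Set (ℝ × ℝ) := Icc (0 : ℝ) 1 ×ˢ Icc (-(2 / k)) (-(1 / k)) with hT
  have h1k : 0 < 1 / k := by positivity
  have h2k : 2 / k ≤ 1 / 2 := by
    rw [div_le_div_iff₀ hk0 (by norm_num)]; linarith
  have hTsub : T ⊆ box := by
    refine prod_mono le_rfl (Icc_subset_Icc ?_ ?_) <;> linarith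
  set g : ℝ → ℝ := fun z => c0 / k ^ 4 * (1 / 2 * k ^ 2 * GG c (-k * z) ^ 2 - e ^ 2) with hg
  have hgc : ContinuousOn g (Icc (-(2 / k)) (-(1 / k))) := by
    have h1 : ContinuousOn (fun z : ℝ => GG c (-k * z)) (Icc (-(2 / k)) (-(1 / k))) := by
      refine (GG_continuousOn c).comp (by fun_prop) ?_
      intro z hz
      have : z < 0 := by linarith [hz.2]
      show 0 < -k * z
      nlinarith
    exact continuousOn_const.mul ((continuousOn_const.mul (h1.pow 2)).sub continuousOn_const)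
  have hgT : IntegrableOn (fun p : ℝ × ℝ => g p.2) T := by
    have : ContinuousOn (fun p : ℝ × ℝ => g p.2) T :=
      hgc.comp (by fun_prop) (fun p hp => hp.2)
    exact this.integrableOn_compact (isCompact_Icc.prod isCompact_Icc)
  have hpt : ∀ p ∈ T, g p.2 ≤ F p := by
    intro p hp
    have hz : p.2 ∈ Icc (-(2 / k)) (-(1 / k)) := hp.2
    have h5 := DcPs_sq_ge h hM0 hM hc hk hp.1 hz
    have h6 : c0 / k ^ 4 ≤ η p.2 := by
      have h7 := h4 p.2 ⟨by linarith [hz.1], by linarith [hz.2]⟩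
      refine le_trans ?_ h7
      have h8 : (1 / k) ^ 4 ≤ p.2 ^ 4 := by
        have h9 : 1 / k ≤ -p.2 := by linarith [hz.2]
        calc (1 / k) ^ 4 ≤ (-p.2) ^ 4 := by gcongr
          _ = p.2 ^ 4 := by ring
      calc c0 / k ^ 4 = c0 * (1 / k) ^ 4 := by field_simp
        _ ≤ c0 * p.2 ^ 4 := by gcongr
    have h10 : 0 ≤ c0 / k ^ 4 := by positivity
    calc g p.2 ≤ c0 / k ^ 4 * (Dc c fun t => Ps η (t / k) p.1 p.2) ^ 2 := by
          simp only [hg]
          gcongr
      _ ≤ η p.2 * ((Dc c fun t => Ps η (t / k) p.1 p.2) ^ 2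
          + (Dc c fun t => Qs η (t / k) p.1 p.2) ^ 2) := by
          have := sq_nonneg (Dc c fun t => Qs η (t / k) p.1 p.2)
          gcongr
          · exact h.nonneg _
          · linarith
  have hTm : MeasurableSet T := measurableSet_Icc.prod measurableSet_Icc
  have s1 : ∫ p in T, g p.2 ≤ ∫ p in box, F p :=
    (setIntegral_mono_on hgT (hFi.mono_set hTsub) hTm hpt).trans
      (setIntegral_mono_set hFi (Filter.Eventually.of_forall hF0) (Filter.Eventually.of_forall hTsub))
  have s2 : ∫ p in T, g p.2 = ∫ z in (-(2 / k))..(-(1 / k)), g z := by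
    rw [hT] at hgT ⊢
    rw [Measure.volume_eq_prod] at hgT ⊢
    rw [setIntegral_prod _ hgT]
    simp only [integral_const, MeasurableSet.univ, measureReal_restrict_apply, univ_inter,
      smul_eq_mul]
    rw [intervalIntegral.integral_of_le (by
      have : 1 / k ≤ 2 / k := by gcongr; norm_num
      linarith), ← integral_Icc_eq_integral_Ioc]
    simp
  have s3 : ∫ z in (-(2 / k))..(-(1 / k)), g z
      = c0 / k ^ 4 * (1 / 2 * k ^ 2 * (1 / k * ∫ τ in (1 : ℝ)..2, GG c τ ^ 2) - 1 / k * e ^ 2) := by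
    have c1 : ∫ z in (-(2 / k))..(-(1 / k)), GG c (-k * z) ^ 2
        = 1 / k * ∫ τ in (1 : ℝ)..2, GG c τ ^ 2 := by
      rw [intervalIntegral.integral_comp_mul_left (fun τ => GG c τ ^ 2) (by linarith : -k ≠ 0)]
      have e1 : -k * -(2 / k) = 2 := by field_simp
      have e2 : -k * -(1 / k) = 1 := by field_simp
      rw [e1, e2, intervalIntegral.integral_symm, smul_eq_mul]
      rw [inv_neg, one_div]
      ring
    have ic : ContinuousOn (fun z : ℝ => GG c (-k * z) ^ 2) (uIcc (-(2 / k)) (-(1 / k))) := by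
      rw [uIcc_of_le (by
        have : 1 / k ≤ 2 / k := by gcongr; norm_num
        linarith)]
      refine ContinuousOn.pow ?_ 2
      refine (GG_continuousOn c).comp (by fun_prop) ?_
      intro z hz
      have : z < 0 := by linarith [hz.2]
      show 0 < -k * z
      nlinarith
    simp only [hg]
    rw [intervalIntegral.integral_const_mul, intervalIntegral.integral_sub
      (ic.intervalIntegrable.const_mul _) intervalIntegrable_const,
      intervalIntegral.integral_const_mul, c1, intervalIntegral.integral_const, smul_eq_mul]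
    have : -(1 / k) - -(2 / k) = 1 / k := by ring
    rw [this]
  rw [s2, s3] at s1
  have e5 : c0 / k ^ 5 * (1 / 2 * k ^ 2 * m - e ^ 2)
      = c0 / k ^ 4 * (1 / 2 * k ^ 2 * (1 / k * m) - 1 / k * e ^ 2) := by
    field_simp
  rw [e5]
  refine le_trans ?_ s1
  gcongr

/-- the integrand with cut-offs -/
noncomputable def Fc (η : ℝ → ℝ) (m : ℝ) (q : ℝ × ℝ) (p : ℝ × ℝ) : ℝ :=
  Fi η (max q.1 m) (max q.2 m) (p.1, min p.2 0)

theorem Fc_continuous (h : IsBump η) {m : ℝ} (hm : 0 < m) : Continuous (Fc η m).uncurry := by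
  have h1 : ∀ (X : ((ℝ × ℝ) × ℝ × ℝ) → ℝ), Continuous X → (∀ a, m ≤ X a) →
      Continuous (fun a : (ℝ × ℝ) × ℝ × ℝ => Ps η (X a) a.2.1 (min a.2.2 0)) ∧
      Continuous (fun a : (ℝ × ℝ) × ℝ × ℝ => Qs η (X a) a.2.1 (min a.2.2 0)) := by
    intro X hX hXm
    have c1 : Continuous fun a : (ℝ × ℝ) × ℝ × ℝ => min a.2.2 0 - X a := by fun_prop
    have c2 : Continuous fun a : (ℝ × ℝ) × ℝ × ℝ => hh η a.2.1 (min a.2.2 0) := by
      unfold hh
      have := h.smooth.continuous
      fun_prop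
    have hne : ∀ a ∈ (univ : Set ((ℝ × ℝ) × ℝ × ℝ)), min a.2.2 0 - X a ≠ 0 := by
      intro a _ h0
      have := min_le_right a.2.2 0
      have := hXm a
      linarith
    constructor
    · rw [← continuousOn_univ]
      exact (continuousOn_pp c1 (c2.add continuous_const) hne).sub
        (continuousOn_pp c1 (c2.sub continuous_const) hne)
    · rw [← continuousOn_univ]
      exact (continuousOn_qq c1 (c2.add continuous_const) hne).sub
        (continuousOn_qq c1 (c2.sub continuous_const) hne)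
  have h2 := h1 (fun a => max a.1.1 m) (by fun_prop) (fun a => le_max_right _ _)
  have h3 := h1 (fun a => max a.1.2 m) (by fun_prop) (fun a => le_max_right _ _)
  have h4 : Continuous fun a : (ℝ × ℝ) × ℝ × ℝ => η (min a.2.2 0) := by
    have := h.smooth.continuous
    fun_prop
  exact h4.mul ((h2.1.mul h3.1).add (h2.2.mul h3.2))

/-- continuous extension of the composed kernel -/
noncomputable def bc (η : ℝ → ℝ) (m : ℝ) (q : ℝ × ℝ) : ℝ :=
  phi0 (q.1 - q.2) - 1 / (2 * π) * ∫ p in box, Fc η m q p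

theorem bc_continuous (h : IsBump η) {m : ℝ} (hm : 0 < m) : Continuous (bc η m) := by
  unfold bc
  have h1 := phi0_continuous
  have h2 := continuous_parametric_integral_of_continuous (μ := volume) (Fc_continuous h hm) box_compact
  fun_prop

theorem bb_eq_bc (h : IsBump η) {m x y : ℝ} (hm : 0 < m) (hx : m ≤ x) (hy : m ≤ y) :
    bb η x y = bc η m (x, y) := by
  rw [bb_eq h (by linarith) (by linarith), b0_eq, RR_eq_set h (by linarith) (by linarith)]
  unfold bc Fc
  congr 2
  refine setIntegral_congr_fun box_meas fun p hp => ?_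
  simp only
  rw [max_eq_left hx, max_eq_left hy, min_eq_left hp.2.2]

/-- averages of a continuous function over small squares -/
theorem avg_near {Φ : ℝ × ℝ → ℝ} (hΦ : Continuous Φ) (a b : ℝ) {δ : ℝ} (hδ : 0 < δ) :
    ∃ ε0 > (0 : ℝ), ∀ ε, 0 < ε → ε < ε0 →
      |(1 / ε) ^ 2 * (∫ x in a..(a + ε), ∫ y in b..(b + ε), Φ (x, y)) - Φ (a, b)| ≤ δ := by
  obtain ⟨ε0, hε0, hcont⟩ := Metric.continuous_iff.mp hΦ (a, b) δ hδ
  refine ⟨ε0, hε0, fun ε hε hε' => ?_⟩
  have hbd : ∀ x ∈ uIoc a (a + ε), ∀ y ∈ uIoc b (b + ε), ‖Φ (x, y) - Φ (a, b)‖ ≤ δ := by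
    intro x hx y hy
    rw [uIoc_of_le (by linarith)] at hx hy
    have := hcont (x, y) (by
      rw [Prod.dist_eq, max_lt_iff]
      simp only [Real.dist_eq]
      rw [abs_of_pos (by linarith [hx.1]), abs_of_pos (by linarith [hy.1])]
      constructor
      · linarith [hx.2]
      · linarith [hy.2])
    rw [dist_eq_norm] at this
    exact this.le
  have hinner : ∀ x, ∫ y in b..(b + ε), (Φ (x, y) - Φ (a, b))
      = (∫ y in b..(b + ε), Φ (x, y)) - ε * Φ (a, b) := by
    intro x
    rw [intervalIntegral.integral_sub]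
    · simp
    · exact (by fun_prop : Continuous fun y => Φ (x, y)).intervalIntegrable _ _
    · exact intervalIntegrable_const
  have hcin : Continuous fun x => ∫ y in b..(b + ε), Φ (x, y) :=
    intervalIntegral.continuous_parametric_intervalIntegral_of_continuous' (f := fun x y => Φ (x, y))
      hΦ _ _
  have e1 : (1 / ε) ^ 2 * (∫ x in a..(a + ε), ∫ y in b..(b + ε), Φ (x, y)) - Φ (a, b)
      = (1 / ε) ^ 2 * ∫ x in a..(a + ε), ∫ y in b..(b + ε), (Φ (x, y) - Φ (a, b)) := by
    simp_rw [hinner]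
    rw [intervalIntegral.integral_sub (hcin.intervalIntegrable _ _) intervalIntegrable_const]
    simp only [intervalIntegral.integral_const, add_sub_cancel_left, smul_eq_mul]
    field_simp
  rw [e1, abs_mul, abs_of_nonneg (by positivity)]
  have h1 : ‖∫ x in a..(a + ε), ∫ y in b..(b + ε), (Φ (x, y) - Φ (a, b))‖ ≤ (δ * ε) * |a + ε - a| := by
    refine intervalIntegral.norm_integral_le_of_norm_le_const fun x hx => ?_
    have := intervalIntegral.norm_integral_le_of_norm_le_const (hbd x hx)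
    rwa [add_sub_cancel_left, abs_of_pos hε] at this
  rw [add_sub_cancel_left, abs_of_pos hε, norm_eq_abs] at h1
  calc (1 / ε) ^ 2 * |∫ x in a..(a + ε), ∫ y in b..(b + ε), (Φ (x, y) - Φ (a, b))|
      ≤ (1 / ε) ^ 2 * (δ * ε * ε) := by gcongr
    _ = δ := by field_simp

end Pool.Agent.Helper47.NP
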