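import Pool.Agent.Helper47.NP.Lower

set_option autoImplicit false
open Real MeasureTheory Set
open scoped ENNReal RealInnerProductSpace
open Pool.Agent.Helper59.NP

namespace Pool.Agent.Helper47.NP

variable {η : ℝ → ℝ}

/-- normalized indicator of a small interval -/
noncomputable def bx (a ε : ℝ) : V :=
  indicatorConstLp 2 (measurableSet_Icc (a := a) (b := a + ε))
    (by rw [Real.volume_Icc]; exact ENNReal.ofReal_ne_top) (1 / ε)

theorem bx_ae (a ε : ℝ) :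
    (bx a ε : ℝ → ℝ) =ᵐ[volume] (Icc a (a + ε)).indicator (fun _ => 1 / ε) :=
  indicatorConstLp_coeFn

theorem inner_bx {k : ℝ → ℝ → ℝ} {H : ℝ → ℝ} (h : KB k H) (a b : ℝ) {ε : ℝ} (hε : 0 < ε) :
    ⟪h.op (bx b ε), bx a ε⟫
      = (1 / ε) ^ 2 * ∫ x in a..(a + ε), ∫ y in b..(b + ε), k x y := by
  rw [h.inner_op]
  have e1 : ∀ x, ∫ y, k x y * bx b ε y = 1 / ε * ∫ y in b..(b + ε), k x y := by
    intro x
    rw [intervalIntegral.integral_of_le (by linarith), ← integral_Icc_eq_integral_Ioc,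
      ← integral_indicator measurableSet_Icc, ← integral_const_mul]
    refine integral_congr_ae ?_
    filter_upwards [bx_ae b ε] with y hy
    rw [hy]
    by_cases hm : y ∈ Icc b (b + ε)
    · rw [indicator_of_mem hm, indicator_of_mem hm]; ring
    · rw [indicator_of_notMem hm, indicator_of_notMem hm]; ring
  simp_rw [e1]
  rw [intervalIntegral.integral_of_le (by linarith), ← integral_Icc_eq_integral_Ioc,
      ← integral_indicator measurableSet_Icc, ← integral_const_mul]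
  refine integral_congr_ae ?_
  filter_upwards [bx_ae a ε] with x hx
  rw [hx]
  by_cases hm : x ∈ Icc a (a + ε)
  · rw [indicator_of_mem hm, indicator_of_mem hm]; ring
  · rw [indicator_of_notMem hm, indicator_of_notMem hm]; ring

theorem DcDc_b0_le {n : ℕ} {c : Fin n → ℝ} (hc : ∀ j, |c j| ≤ 1) (k : ℝ) :
    |Dc c (fun t => Dc c (fun u => b0 (t / k) (u / k)))| ≤ n * (n * (K0 * (45 * (1 / k) ^ 4))) := by
  unfold Dc
  refine (Finset.abs_sum_le_sum_abs _ _).trans ?_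
  have key : ∀ i ∈ (Finset.univ : Finset (Fin n)), |c i •
      ((∑ j : Fin n, c j • (b0 (((3 * i + 1 : ℕ) : ℝ) / k) (((3 * j + 1 : ℕ) : ℝ) / k)
        - (2 : ℝ) • b0 (((3 * i + 1 : ℕ) : ℝ) / k) (((3 * j + 2 : ℕ) : ℝ) / k)
        + b0 (((3 * i + 1 : ℕ) : ℝ) / k) (((3 * j + 3 : ℕ) : ℝ) / k)))
      - (2 : ℝ) • (∑ j : Fin n, c j • (b0 (((3 * i + 2 : ℕ) : ℝ) / k) (((3 * j + 1 : ℕ) : ℝ) / k)
        - (2 : ℝ) • b0 (((3 * i + 2 : ℕ) : ℝ) / k) (((3 * j + 2 : ℕ) : ℝ) / k)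
        + b0 (((3 * i + 2 : ℕ) : ℝ) / k) (((3 * j + 3 : ℕ) : ℝ) / k)))
      + (∑ j : Fin n, c j • (b0 (((3 * i + 3 : ℕ) : ℝ) / k) (((3 * j + 1 : ℕ) : ℝ) / k)
        - (2 : ℝ) • b0 (((3 * i + 3 : ℕ) : ℝ) / k) (((3 * j + 2 : ℕ) : ℝ) / k)
        + b0 (((3 * i + 3 : ℕ) : ℝ) / k) (((3 * j + 3 : ℕ) : ℝ) / k))))|
      ≤ n * (K0 * (45 * (1 / k) ^ 4)) := by
    intro i _
    rw [Finset.smul_sum, ← Finset.sum_sub_distrib, ← Finset.sum_add_distrib, Finset.smul_sum]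
    refine (Finset.abs_sum_le_sum_abs _ _).trans ?_
    have key2 : ∀ j ∈ (Finset.univ : Finset (Fin n)), |c i •
      (c j • (b0 (((3 * i + 1 : ℕ) : ℝ) / k) (((3 * j + 1 : ℕ) : ℝ) / k)
        - (2 : ℝ) • b0 (((3 * i + 1 : ℕ) : ℝ) / k) (((3 * j + 2 : ℕ) : ℝ) / k)
        + b0 (((3 * i + 1 : ℕ) : ℝ) / k) (((3 * j + 3 : ℕ) : ℝ) / k))
      - (2 : ℝ) • c j • (b0 (((3 * i + 2 : ℕ) : ℝ) / k) (((3 * j + 1 : ℕ) : ℝ) / k)
        - (2 : ℝ) • b0 (((3 * i + 2 : ℕ) : ℝ) / k) (((3 * j + 2 : ℕ) : ℝ) / k)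
        + b0 (((3 * i + 2 : ℕ) : ℝ) / k) (((3 * j + 3 : ℕ) : ℝ) / k))
      + c j • (b0 (((3 * i + 3 : ℕ) : ℝ) / k) (((3 * j + 1 : ℕ) : ℝ) / k)
        - (2 : ℝ) • b0 (((3 * i + 3 : ℕ) : ℝ) / k) (((3 * j + 2 : ℕ) : ℝ) / k)
        + b0 (((3 * i + 3 : ℕ) : ℝ) / k) (((3 * j + 3 : ℕ) : ℝ) / k)))|
        ≤ K0 * (45 * (1 / k) ^ 4) := by
      intro j _
      have h4 := phi0_Del4 (1 / k) (3 * (i : ℝ) / k - 3 * (j : ℝ) / k)
      simp only [b0_eq, smul_eq_mul]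
      push_cast
      set A := phi0 (3 * (i : ℝ) / k - 3 * (j : ℝ) / k + 2 * (1 / k))
      set B := phi0 (3 * (i : ℝ) / k - 3 * (j : ℝ) / k + (1 / k))
      set C := phi0 (3 * (i : ℝ) / k - 3 * (j : ℝ) / k)
      set D := phi0 (3 * (i : ℝ) / k - 3 * (j : ℝ) / k - (1 / k))
      set E := phi0 (3 * (i : ℝ) / k - 3 * (j : ℝ) / k - 2 * (1 / k))
      have e11 : phi0 ((3 * (i : ℝ) + 1) / k - (3 * (j : ℝ) + 1) / k) = C := by
        congr 1; ring
      have e12 : phi0 ((3 * (i : ℝ) + 1) / k - (3 * (j : ℝ) + 2) / k) = D := by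
        congr 1; ring
      have e13 : phi0 ((3 * (i : ℝ) + 1) / k - (3 * (j : ℝ) + 3) / k) = E := by
        congr 1; ring
      have e21 : phi0 ((3 * (i : ℝ) + 2) / k - (3 * (j : ℝ) + 1) / k) = B := by
        congr 1; ring
      have e22 : phi0 ((3 * (i : ℝ) + 2) / k - (3 * (j : ℝ) + 2) / k) = C := by
        congr 1; ring
      have e23 : phi0 ((3 * (i : ℝ) + 2) / k - (3 * (j : ℝ) + 3) / k) = D := by
        congr 1; ring
      have e31 : phi0 ((3 * (i : ℝ) + 3) / k - (3 * (j : ℝ) + 1) / k) = A := by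
        congr 1; ring
      have e32 : phi0 ((3 * (i : ℝ) + 3) / k - (3 * (j : ℝ) + 2) / k) = B := by
        congr 1; ring
      have e33 : phi0 ((3 * (i : ℝ) + 3) / k - (3 * (j : ℝ) + 3) / k) = C := by
        congr 1; ring
      rw [e11, e12, e13, e21, e22, e23, e31, e32, e33]
      have e : c i * (c j * (C - 2 * D + E) - 2 * (c j * (B - 2 * C + D)) + c j * (A - 2 * B + C))
          = c i * c j * (A - 4 * B + 6 * C - 4 * D + E) := by ring
      rw [e, abs_mul, abs_mul]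
      calc |c i| * |c j| * |A - 4 * B + 6 * C - 4 * D + E|
          ≤ 1 * 1 * (K0 * (45 * (1 / k) ^ 4)) := by
            gcongr
            · exact hc i
            · exact hc j
        _ = _ := by ring
    refine (Finset.sum_le_sum key2).trans ?_
    simp
  refine (Finset.sum_le_sum key).trans ?_
  simp

theorem DcDc_bb_le (h : IsBump η) {M : ℝ} (hM0 : 0 < M) (hM : ∀ z, η z ≤ M * z ^ 2) {n : ℕ}
    {c0 : ℝ} (hc0 : 0 < c0) (h4 : ∀ x ∈ Icc (-(1 / 2) : ℝ) 0, c0 * x ^ 4 ≤ η x)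
    {m : ℝ} {c : Fin n → ℝ} (hc : ∀ j, |c j| ≤ 1) (hm : m ≤ ∫ τ in (1 : ℝ)..2, GG c τ ^ 2)
    {k : ℝ} (hk : 3 * n + 4 ≤ k) :
    Dc c (fun t => Dc c (fun u => bb η (t / k) (u / k)))
      ≤ n * (n * (K0 * (45 * (1 / k) ^ 4)))
        - 1 / (2 * π) * (c0 / k ^ 5 * (1 / 2 * k ^ 2 * m - (n * (4 * (3 + M ^ 2))) ^ 2)) := by
  have hn0 : (0 : ℝ) ≤ 3 * n := by positivity
  have hk0 : 0 < k := by linarith
  have hpos : ∀ t : ℕ, 1 ≤ t → 0 < (t : ℝ) / k := fun t ht => by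
    have : (0 : ℝ) < t := by exact_mod_cast ht
    positivity
  have e1 : Dc c (fun t => Dc c (fun u => bb η (t / k) (u / k)))
      = Dc c (fun t => Dc c (fun u => b0 (t / k) (u / k)))
        - 1 / (2 * π) * Dc c (fun t => Dc c (fun u => RR η (t / k) (u / k))) := by
    rw [← Dc_mul_left, ← Dc_sub]
    refine Dc_congr c fun t ht _ => ?_
    rw [← Dc_mul_left, ← Dc_sub]
    exact Dc_congr c fun u hu _ => bb_eq h (hpos t ht) (hpos u hu)
  rw [e1]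
  have h1 := (abs_le.mp (DcDc_b0_le hc k)).2
  have h2 := DcDc_RR_ge h hM0 hM hc0 h4 hc hm hk
  have h3 : 0 < 1 / (2 * π) := by
    have := pi_pos
    positivity
  have h5 := mul_le_mul_of_nonneg_left h2 h3.le
  linarith

theorem form_eq {n : ℕ} {K : ℝ → ℝ → ℝ} {H : ℝ → ℝ} (h : KB K H) (c : Fin n → ℝ) (g : ℕ → V) :
    ⟪h.op (Dc c g), Dc c g⟫ = Dc c (fun t => Dc c (fun u => ⟪h.op (g u), g t⟫)) := by
  have h1 : ∀ φ : V, ⟪φ, Dc c g⟫ = Dc c (fun t => ⟪φ, g t⟫) := fun φ =>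
    map_Dc (innerSL ℝ φ).toLinearMap c g
  have h2 : ∀ ψ : V, ⟪h.op (Dc c g), ψ⟫ = Dc c (fun u => ⟪h.op (g u), ψ⟫) := fun ψ => by
    have := map_Dc ((innerSL ℝ ψ).toLinearMap ∘ₗ (h.op : V →ₗ[ℝ] V)) c g
    simp only [LinearMap.comp_apply, ContinuousLinearMap.coe_coe, innerSL_apply_apply] at this
    simp_rw [real_inner_comm ψ] at this ⊢
    exact this
  rw [h1]
  simp_rw [h2]

theorem _root_.Pool.Agent.Helper59.NP.IsBump.exists_neg (h : IsBump η)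
    (h4 : ∃ c > (0 : ℝ), ∀ x ∈ Icc (-(1 / 2) : ℝ) 0, c * x ^ 4 ≤ η x)
    (n : ℕ) : ∃ f : (Fin n → ℝ) →ₗ[ℝ] V, ∀ c ≠ 0, ⟪h.kbG.op (h.kb_lk.op (f c)), f c⟫ < 0 := by
  obtain ⟨c0, hc0, h4⟩ := h4
  obtain ⟨M, hM0, hM⟩ := eta_le_sq h
  obtain ⟨m, hm0, hm⟩ := exists_lower n
  have hpi := pi_pos
  have hK0 := K0_nonneg
  set e : ℝ := n * (4 * (3 + M ^ 2)) with he
  set A : ℝ := 2 * π * (45 * n ^ 2 * K0) / c0 with hA
  have hA0 : 0 ≤ A := by positivity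
  set k : ℝ := max (3 * n + 4) (2 / m * (A + e ^ 2) + 1) with hk
  have hk1 : 3 * n + 4 ≤ k := le_max_left _ _
  have hk2 : 2 / m * (A + e ^ 2) + 1 ≤ k := le_max_right _ _
  have hn0 : (0 : ℝ) ≤ n := by positivity
  have hk4 : 4 ≤ k := by linarith
  have hk0 : 0 < k := by linarith
  -- the key numeric inequality
  have hnum : A * k + e ^ 2 < 1 / 2 * k ^ 2 * m := by
    have h1 : A + e ^ 2 < m / 2 * k := by
      have h2 : 2 / m * (A + e ^ 2) < k := by linarith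
      have h3 : m / 2 * (2 / m * (A + e ^ 2)) = A + e ^ 2 := by field_simp
      have h5 : m / 2 * (2 / m * (A + e ^ 2)) < m / 2 * k := by gcongr
      linarith
    have h6 : (A + e ^ 2) * k < m / 2 * k * k := by gcongr
    have h7 : e ^ 2 ≤ e ^ 2 * k := by nlinarith [sq_nonneg e]
    nlinarith
  set μ : ℝ := 1 / (2 * π) * (c0 / k ^ 5 * (1 / 2 * k ^ 2 * m - e ^ 2))
    - n * (n * (K0 * (45 * (1 / k) ^ 4))) with hμ
  have hμ0 : 0 < μ := by
    have e1 : μ = 1 / (2 * π) * (c0 / k ^ 5) * (1 / 2 * k ^ 2 * m - e ^ 2 - A * k) := by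
      rw [hμ, hA]
      field_simp
    rw [e1]
    have : 0 < 1 / 2 * k ^ 2 * m - e ^ 2 - A * k := by linarith
    positivity
  have hT0 : ∀ c : Fin n → ℝ, ‖c‖ = 1 →
      Dc c (fun t => Dc c (fun u => bb η (t / k) (u / k))) ≤ -μ := by
    intro c hc
    have hc1 : ∀ j, |c j| ≤ 1 := fun j => by
      rw [← hc]; exact norm_le_pi_norm c j
    have := DcDc_bb_le h hM0 hM hc0 h4 hc1 (hm c hc) hk1
    rw [← he] at this
    linarith
  -- choice of ε
  set δ : ℝ := μ / (2 * (n * (4 * (n * 4)) + 1)) with hδ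
  have hδ0 : 0 < δ := by positivity
  have hδ1 : n * (4 * (n * (4 * δ))) < μ := by
    have h1 : n * (4 * (n * (4 * δ))) = (n * (4 * (n * 4))) / (2 * (n * (4 * (n * 4)) + 1)) * μ := by
      rw [hδ]; field_simp
    rw [h1]
    have h2 : ((n : ℝ) * (4 * (n * 4))) / (2 * (n * (4 * (n * 4)) + 1)) < 1 := by
      rw [div_lt_one (by positivity)]
      have : (0 : ℝ) ≤ n * (4 * (n * 4)) := by positivity
      linarith
    nlinarith
  set kb := h.kbG.comp h.kb_lk (HL_le h.Cl_pos.le) with hkb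
  have hev : ∀ t u : ℕ, 1 ≤ t → 1 ≤ u → ∀ᶠ ε in nhdsWithin (0 : ℝ) (Ioi 0),
      |⟪kb.op (bx (u / k) ε), bx (t / k) ε⟫ - bb η (t / k) (u / k)| ≤ δ := by
    intro t u ht hu
    have h1k : 0 < 1 / k := by positivity
    have htk : 1 / k ≤ (t : ℝ) / k := by
      have : (1 : ℝ) ≤ t := by exact_mod_cast ht
      gcongr
    have huk : 1 / k ≤ (u : ℝ) / k := by
      have : (1 : ℝ) ≤ u := by exact_mod_cast hu
      gcongr
    obtain ⟨ε0, hε0, hav⟩ := avg_near (bc_continuous h h1k) (t / k) (u / k) hδ0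
    filter_upwards [Ioo_mem_nhdsGT hε0] with ε hε
    have h1 := hav ε hε.1 hε.2
    rw [inner_bx kb _ _ hε.1, bb_eq_bc h h1k htk huk]
    convert! h1 using 4
    refine intervalIntegral.integral_congr fun x hx => intervalIntegral.integral_congr fun y hy => ?_
    rw [uIcc_of_le (by linarith [hε.1])] at hx hy
    exact bb_eq_bc h h1k (htk.trans hx.1) (huk.trans hy.1)
  have hev2 : ∀ᶠ ε in nhdsWithin (0 : ℝ) (Ioi 0), ∀ t ∈ Finset.Icc 1 (3 * n),
      ∀ u ∈ Finset.Icc 1 (3 * n),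
      |⟪kb.op (bx (u / k) ε), bx (t / k) ε⟫ - bb η (t / k) (u / k)| ≤ δ := by
    rw [Filter.eventually_all_finset]
    intro t ht
    rw [Filter.eventually_all_finset]
    intro u hu
    exact hev t u (Finset.mem_Icc.mp ht).1 (Finset.mem_Icc.mp hu).1
  obtain ⟨ε, hε⟩ := hev2.exists
  -- the test functions
  set g : ℕ → V := fun t => bx (t / k) ε with hg
  have hunit : ∀ c : Fin n → ℝ, ‖c‖ = 1 → ⟪kb.op (Dc c g), Dc c g⟫ < 0 := by
    intro c hc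
    have hc1 : ∀ j, |c j| ≤ 1 := fun j => by
      rw [← hc]; exact norm_le_pi_norm c j
    rw [form_eq]
    have h1 := hT0 c hc
    have h2 : |Dc c (fun t => Dc c (fun u => ⟪kb.op (g u), g t⟫))
        - Dc c (fun t => Dc c (fun u => bb η (t / k) (u / k)))| ≤ n * (4 * (n * (4 * δ))) := by
      rw [← Dc_sub]
      refine abs_Dc_le hc1 fun t ht1 ht2 => ?_
      rw [← Dc_sub]
      refine abs_Dc_le hc1 fun u hu1 hu2 => ?_
      exact hε t (Finset.mem_Icc.mpr ⟨ht1, ht2⟩) u (Finset.mem_Icc.mpr ⟨hu1, hu2⟩)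
    have h3 := (abs_le.mp h2).2
    linarith
  refine ⟨DcLin n g, fun c hc => ?_⟩
  have hcn : 0 < ‖c‖ := norm_pos_iff.mpr hc
  set c' : Fin n → ℝ := ‖c‖⁻¹ • c with hc'
  have hc'1 : ‖c'‖ = 1 := by
    rw [hc', norm_smul, norm_inv, norm_norm, inv_mul_cancel₀ hcn.ne']
  have hcc : c = ‖c‖ • c' := by
    rw [hc', smul_smul, mul_inv_cancel₀ hcn.ne', one_smul]
  have h1 : DcLin n g c = ‖c‖ • Dc c' g := by
    conv_lhs => rw [hcc]
    exact Dc_smul _ _ _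
  rw [h.kbG.op_comp h.kb_lk (HL_le h.Cl_pos.le), h1, map_smul, real_inner_smul_left,
    real_inner_smul_right]
  have := hunit c' hc'1
  have h2 : 0 < ‖c‖ * ‖c‖ := by positivity
  nlinarith

end Pool.Agent.Helper47.NP
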