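import Pool.Agent.Helper47.NP.Asym
import Pool.Agent.Helper47.NP.Dc

set_option autoImplicit false
open Real MeasureTheory Set
open scoped ENNReal
open Pool.Agent.Helper59.NP

namespace Pool.Agent.Helper47.NP

variable {η : ℝ → ℝ}

/-- the rectangle -/
def box : Set (ℝ × ℝ) := Icc (0 : ℝ) 1 ×ˢ Icc (-1 : ℝ) 0

theorem box_compact : IsCompact box := isCompact_Icc.prod isCompact_Icc

theorem box_meas : MeasurableSet box := measurableSet_Icc.prod measurableSet_Icc

noncomputable def Fi (η : ℝ → ℝ) (x y : ℝ) (p : ℝ × ℝ) : ℝ :=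
  η p.2 * (Ps η x p.1 p.2 * Ps η y p.1 p.2 + Qs η x p.1 p.2 * Qs η y p.1 p.2)

theorem box_ne {x : ℝ} (hx : 0 < x) : ∀ p ∈ box, p.2 - x ≠ 0 := fun p hp => by
  have : p.2 ≤ 0 := hp.2.2
  intro h; linarith

theorem eta_cont (h : IsBump η) : Continuous fun p : ℝ × ℝ => η p.2 := by
  have := h.smooth.continuous
  fun_prop

theorem Fi_continuousOn (h : IsBump η) {x y : ℝ} (hx : 0 < x) (hy : 0 < y) :
    ContinuousOn (Fi η x y) box :=
  (eta_cont h).continuousOn.mul (((Ps_continuousOn h (box_ne hx)).mul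
    (Ps_continuousOn h (box_ne hy))).add ((Qs_continuousOn h (box_ne hx)).mul
    (Qs_continuousOn h (box_ne hy))))

theorem RR_eq_set (h : IsBump η) {x y : ℝ} (hx : 0 < x) (hy : 0 < y) :
    RR η x y = ∫ p in box, Fi η x y p := by
  have hi : IntegrableOn (Fi η x y) box := (Fi_continuousOn h hx hy).integrableOn_compact box_compact
  have h1 : ∫ p in box, Fi η x y p = ∫ s in (0 : ℝ)..1, ∫ z in (-1 : ℝ)..0, Fi η x y (s, z) := by
    unfold box at hi ⊢
    rw [Measure.volume_eq_prod] at hi ⊢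
    rw [setIntegral_prod _ hi, intervalIntegral.integral_of_le (by norm_num),
      ← integral_Icc_eq_integral_Ioc]
    refine setIntegral_congr_fun measurableSet_Icc fun s _ => ?_
    rw [intervalIntegral.integral_of_le (by norm_num), ← integral_Icc_eq_integral_Ioc]
  rw [h1, intervalIntegral_intervalIntegral_swap (F := fun s z => Fi η x y (s, z))]
  · rfl
  · refine hi.mono_set ?_
    rw [uIoc_of_le (by norm_num), uIoc_of_le (by norm_num)]
    exact prod_mono Ioc_subset_Icc_self Ioc_subset_Icc_self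

theorem Dc_integrable {α : Type*} [MeasurableSpace α] {μ : Measure α} {n : ℕ} (c : Fin n → ℝ)
    {φ : ℕ → α → ℝ} (hφ : ∀ t, 1 ≤ t → t ≤ 3 * n → Integrable (φ t) μ) :
    Integrable (fun p => Dc c (fun t => φ t p)) μ := by
  unfold Dc
  refine integrable_finsetSum _ fun j _ => ?_
  have := j.2
  have h1 := hφ (3 * j + 1) (by omega) (by omega)
  have h2 := hφ (3 * j + 2) (by omega) (by omega)
  have h3 := hφ (3 * j + 3) (by omega) (by omega)
  exact ((h1.sub (h2.smul (2 : ℝ))).add h3).smul (c j)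

theorem Dc_integral {α : Type*} [MeasurableSpace α] {μ : Measure α} {n : ℕ} (c : Fin n → ℝ)
    {φ : ℕ → α → ℝ} (hφ : ∀ t, 1 ≤ t → t ≤ 3 * n → Integrable (φ t) μ) :
    Dc c (fun t => ∫ p, φ t p ∂μ) = ∫ p, Dc c (fun t => φ t p) ∂μ := by
  unfold Dc
  rw [integral_finsetSum]
  · refine Finset.sum_congr rfl fun j _ => ?_
    have := j.2
    have h1 := hφ (3 * j + 1) (by omega) (by omega)
    have h2 := hφ (3 * j + 2) (by omega) (by omega)
    have h3 := hφ (3 * j + 3) (by omega) (by omega)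
    have g2 : Integrable (fun p => 2 * φ (3 * j + 2) p) μ := h2.const_mul 2
    have g12 : Integrable (fun p => φ (3 * j + 1) p - 2 * φ (3 * j + 2) p) μ := h1.sub g2
    simp only [smul_eq_mul]
    rw [integral_const_mul, integral_add g12 h3, integral_sub h1 g2, integral_const_mul]
  · intro j _
    have := j.2
    have h1 := hφ (3 * j + 1) (by omega) (by omega)
    have h2 := hφ (3 * j + 2) (by omega) (by omega)
    have h3 := hφ (3 * j + 3) (by omega) (by omega)
    exact ((h1.sub (h2.smul (2 : ℝ))).add h3).smul (c j)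

theorem Dc_mul_left {n : ℕ} (c : Fin n → ℝ) (a : ℝ) (φ : ℕ → ℝ) :
    Dc c (fun t => a * φ t) = a * Dc c φ := Dc_const_smul c a φ

theorem Dc_add_fun {n : ℕ} (c : Fin n → ℝ) (φ ψ : ℕ → ℝ) :
    Dc c (fun t => φ t + ψ t) = Dc c φ + Dc c ψ := by
  have := Dc_sub c φ (fun t => -1 * ψ t)
  rw [Dc_mul_left] at this
  have e : (fun t => φ t - -1 * ψ t) = fun t => φ t + ψ t := by funext t; ring
  rw [e] at this
  rw [this]; ring

theorem DcDc_RR (h : IsBump η) {n : ℕ} (c : Fin n → ℝ) {k : ℝ} (hk : 0 < k) :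
    Dc c (fun t => Dc c (fun u => RR η (t / k) (u / k)))
      = ∫ p in box, η p.2 * ((Dc c fun t => Ps η (t / k) p.1 p.2) ^ 2
          + (Dc c fun t => Qs η (t / k) p.1 p.2) ^ 2) := by
  have hpos : ∀ t : ℕ, 1 ≤ t → 0 < (t : ℝ) / k := fun t ht => by
    have : (0 : ℝ) < t := by exact_mod_cast ht
    positivity
  have e1 : Dc c (fun t => Dc c (fun u => RR η (t / k) (u / k)))
      = Dc c (fun t => Dc c (fun u => ∫ p in box, Fi η (t / k) (u / k) p)) := by
    refine Dc_congr c fun t ht1 _ => Dc_congr c fun u hu1 _ => ?_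
    exact RR_eq_set h (hpos t ht1) (hpos u hu1)
  have e2 : ∀ t : ℕ, 1 ≤ t → Dc c (fun u => ∫ p in box, Fi η (t / k) (u / k) p)
      = ∫ p in box, Dc c (fun u => Fi η (t / k) (u / k) p) := fun t ht =>
    Dc_integral c fun u hu _ =>
      (Fi_continuousOn h (hpos t ht) (hpos u hu)).integrableOn_compact box_compact
  rw [e1, Dc_congr c fun t ht _ => e2 t ht, Dc_integral c fun t ht _ => Dc_integrable c fun u hu _ =>
      (Fi_continuousOn h (hpos t ht) (hpos u hu)).integrableOn_compact box_compact]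
  refine integral_congr_ae (Filter.Eventually.of_forall fun p => ?_)
  simp only [Fi]
  have e3 : ∀ t : ℕ, Dc c (fun u : ℕ => η p.2 * (Ps η (t / k) p.1 p.2 * Ps η (u / k) p.1 p.2
      + Qs η (t / k) p.1 p.2 * Qs η (u / k) p.1 p.2))
      = η p.2 * (Dc c (fun u : ℕ => Ps η (t / k) p.1 p.2 * Ps η (u / k) p.1 p.2)
        + Dc c (fun u : ℕ => Qs η (t / k) p.1 p.2 * Qs η (u / k) p.1 p.2)) := by
    intro t
    rw [Dc_mul_left, Dc_add_fun]
  simp_rw [e3]
  rw [Dc_mul_left, Dc_add_fun, Dc_Dc_mul c (fun t => Ps η (t / k) p.1 p.2)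
    (fun t => Ps η (t / k) p.1 p.2), Dc_Dc_mul c (fun t => Qs η (t / k) p.1 p.2)
    (fun t => Qs η (t / k) p.1 p.2), sq, sq]

theorem DcPs_continuousOn (h : IsBump η) {n : ℕ} (c : Fin n → ℝ) {k : ℝ} (hk : 0 < k) :
    ContinuousOn (fun p : ℝ × ℝ => Dc c fun t => Ps η (t / k) p.1 p.2) box := by
  have hpos : ∀ t : ℕ, 1 ≤ t → 0 < (t : ℝ) / k := fun t ht => by
    have : (0 : ℝ) < t := by exact_mod_cast ht
    positivity
  unfold Dc
  refine continuousOn_finsetSum _ fun j _ => ?_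
  simp only [smul_eq_mul]
  have h1 := Ps_continuousOn h (box_ne (hpos (3 * j + 1) (by omega)))
  have h2 := Ps_continuousOn h (box_ne (hpos (3 * j + 2) (by omega)))
  have h3 := Ps_continuousOn h (box_ne (hpos (3 * j + 3) (by omega)))
  exact continuousOn_const.mul ((h1.sub (continuousOn_const.mul h2)).add h3)

theorem DcQs_continuousOn (h : IsBump η) {n : ℕ} (c : Fin n → ℝ) {k : ℝ} (hk : 0 < k) :
    ContinuousOn (fun p : ℝ × ℝ => Dc c fun t => Qs η (t / k) p.1 p.2) box := by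
  have hpos : ∀ t : ℕ, 1 ≤ t → 0 < (t : ℝ) / k := fun t ht => by
    have : (0 : ℝ) < t := by exact_mod_cast ht
    positivity
  unfold Dc
  refine continuousOn_finsetSum _ fun j _ => ?_
  simp only [smul_eq_mul]
  have h1 := Qs_continuousOn h (box_ne (hpos (3 * j + 1) (by omega)))
  have h2 := Qs_continuousOn h (box_ne (hpos (3 * j + 2) (by omega)))
  have h3 := Qs_continuousOn h (box_ne (hpos (3 * j + 3) (by omega)))
  exact continuousOn_const.mul ((h1.sub (continuousOn_const.mul h2)).add h3)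

/-- pointwise lower bound for the singular part -/
theorem DcPs_sq_ge (h : IsBump η) {M : ℝ} (hM0 : 0 < M) (hM : ∀ z, η z ≤ M * z ^ 2) {n : ℕ}
    {c : Fin n → ℝ} (hc : ∀ j, |c j| ≤ 1) {k : ℝ} (hk : 3 * n + 4 ≤ k) {s z : ℝ} (hs : s ∈ Icc (0 : ℝ) 1)
    (hz : z ∈ Icc (-(2 / k)) (-(1 / k))) :
    1 / 2 * k ^ 2 * GG c (-k * z) ^ 2 - (n * (4 * (3 + M ^ 2))) ^ 2
      ≤ (Dc c fun t => Ps η (t / k) s z) ^ 2 := by
  have hk0 : 0 < k := by
    have : (0 : ℝ) ≤ 3 * n := by positivity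
    linarith
  have hz0 : z < 0 := by
    have : 0 < 1 / k := by positivity
    linarith [hz.2]
  have e1 : (Dc c fun t => Ps η (t / k) s z) - k * GG c (-k * z)
      = Dc c (fun t => Ps η (t / k) s z - 1 / (t / k - z)) := by
    rw [Dc_sub, GG, ← Dc_mul_left]
    congr 1
    refine Dc_congr c fun t ht _ => ?_
    have : (0 : ℝ) < t := by exact_mod_cast ht
    have h1 : (t : ℝ) / k - z ≠ 0 := by
      have : 0 < (t : ℝ) / k := by positivity
      linarith
    have h2 : -k * z + t ≠ 0 := by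
      have : 0 < -k * z := by nlinarith
      positivity
    have h3 : (t : ℝ) / k - z = (-k * z + t) / k := by field_simp; ring
    rw [h3]
    field_simp
  have e2 : |(Dc c fun t => Ps η (t / k) s z) - k * GG c (-k * z)| ≤ n * (4 * (3 + M ^ 2)) := by
    rw [e1]
    refine abs_Dc_le hc fun t ht1 ht2 => ?_
    have ht : (0 : ℝ) < t := by exact_mod_cast ht1
    refine Ps_near h hM0 hM (by positivity) hz0.le hs.1 hs.2 ?_
    have h1 : (t : ℝ) ≤ 3 * n := by exact_mod_cast ht2
    have h2 : (t : ℝ) / k - z ≤ (t + 2) / k := by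
      have := hz.1
      rw [add_div]; linarith
    refine h2.trans ?_
    rw [div_le_one hk0]
    linarith
  have e3 := sq_abs ((Dc c fun t => Ps η (t / k) s z) - k * GG c (-k * z))
  have e4 : ((Dc c fun t => Ps η (t / k) s z) - k * GG c (-k * z)) ^ 2
      ≤ (n * (4 * (3 + M ^ 2))) ^ 2 := by
    rw [← e3]
    gcongr
  nlinarith [sq_nonneg (2 * (Dc c fun t => Ps η (t / k) s z) - k * GG c (-k * z))]

end Pool.Agent.Helper47.NP
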